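import Pool.Agent.TH578.BE.Refl

set_option autoImplicit false

/-!
The reflection relations, and the vanishing of eigenfunctions with nonzero frequency.
-/

namespace Pool.Agent.TH578.BE

open Complex Set MeasureTheory Filter Topology Pool.Agent.W780.PG Pool.Agent.W780.BB
open Pool.Agent.W803.BBD (xc)
open Pool.Agent.W101.BB (rate sf_add rate_refl rate_eq cont_sf ae_rate)

open scoped Real ComplexConjugate

variable {n : ℕ}

/-- the weight of the reflection in side `i`, for the direction `θ` -/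
noncomputable def wt (p : Fin (n + 3) → ℂ) (χ : Fin (n + 3) → ℂ) (i : Fin (n + 3)) (θ : ℝ) : ℂ :=
  if rate p i θ < 0 then χ i else (χ i)⁻¹

theorem side_ne (hB : S_Basic) {p : Fin (n + 3) → ℂ} (hp : IsConvexPolygon p) (i : Fin (n + 3)) :
    p (i + 1) ≠ p i := by
  intro h
  have := (hB n p hp).1 h
  have h1 : (1 : Fin (n + 3)) = 0 := by
    have h2 : i + 1 = i + 0 := by rw [this, add_zero]
    exact add_left_cancel h2
  exact absurd h1 (by simp)

theorem refl_f (hB : S_Basic) (hH : S_Hull) {p : Fin (n + 3) → ℂ} (hp : IsConvexPolygon p)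
    {ω : ℝ} {χ : Fin (n + 3) → ℂ} (hχ : ∀ i, ‖χ i‖ = 1) {f : ℂ × ℝ → ℂ}
    (hS : IsEigenfunction p ω χ f) {g : ℝ → ℂ} (hg : ∀ᵐ θ : ℝ, Gd p ω f g θ) (i : Fin (n + 3)) :
    ∀ᵐ θ : ℝ, g (2 * tau p i - θ) =
      wt p χ i θ * dir (ω * (xc θ (p i) - xc (2 * tau p i - θ) (p i))) * g θ := by
  have hmp : MeasurePreserving (fun θ : ℝ => 2 * tau p i - θ) volume volume :=
    Measure.measurePreserving_sub_left volume _
  have hg' : ∀ᵐ θ : ℝ, Gd p ω f g (2 * tau p i - θ) := hmp.quasiMeasurePreserving.ae hg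
  filter_upwards [hg, hg', ae_rate i (side_ne hB hp i)] with θ h1 h2 h3
  have hχ0 : χ i ≠ 0 := fun h => by
    have := hχ i
    rw [h, norm_zero] at this
    exact zero_ne_one this
  rcases lt_or_gt_of_ne h3 with h | h
  · rw [wt, if_pos h]
    exact first hB hH hp hS i h h1 h2
  · rw [wt, if_neg (not_lt.2 h.le)]
    have h4 : rate p i (2 * tau p i - θ) < 0 := by rw [rate_refl]; linarith
    have h5 : 2 * tau p i - (2 * tau p i - θ) = θ := by ring
    have h6 := first hB hH hp hS i h4 h2 (by rw [h5]; exact h1)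
    rw [h5] at h6
    rw [h6]
    have h7 : dir (ω * (xc θ (p i) - xc (2 * tau p i - θ) (p i))) *
        dir (ω * (xc (2 * tau p i - θ) (p i) - xc θ (p i))) = 1 := by
      rw [← dir_add]
      have : ω * (xc θ (p i) - xc (2 * tau p i - θ) (p i)) +
          ω * (xc (2 * tau p i - θ) (p i) - xc θ (p i)) = 0 := by ring
      rw [this]
      unfold dir
      simp
    have h8 : (χ i)⁻¹ * dir (ω * (xc θ (p i) - xc (2 * tau p i - θ) (p i))) *
        (χ i * dir (ω * (xc (2 * tau p i - θ) (p i) - xc θ (p i))) * g (2 * tau p i - θ)) =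
        ((χ i)⁻¹ * χ i) * (dir (ω * (xc θ (p i) - xc (2 * tau p i - θ) (p i))) *
        dir (ω * (xc (2 * tau p i - θ) (p i) - xc θ (p i)))) * g (2 * tau p i - θ) := by ring
    rw [h8, h7, inv_mul_cancel₀ hχ0, one_mul, one_mul]

/-- the value at the point `v` -/
noncomputable def Gv (ω : ℝ) (g : ℝ → ℂ) (v : ℂ) (θ : ℝ) : ℂ := dir (ω * xc θ v) * g θ

theorem Gv_add (ω : ℝ) (g : ℝ → ℂ) (v u : ℂ) (θ : ℝ) :
    Gv ω g (v + u) θ = dir (ω * xc θ u) * Gv ω g v θ := by
  unfold Gv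
  have h : xc θ (v + u) = xc θ v + xc θ u := by
    have := xc_sub' θ (v + u) u
    rw [add_sub_cancel_right] at this
    linarith
  rw [h, mul_add, dir_add]
  ring

theorem Gv_refl {p : Fin (n + 3) → ℂ} {ω : ℝ} {χ : Fin (n + 3) → ℂ} {g : ℝ → ℂ} {i : Fin (n + 3)}
    (h : ∀ᵐ θ : ℝ, g (2 * tau p i - θ) =
      wt p χ i θ * dir (ω * (xc θ (p i) - xc (2 * tau p i - θ) (p i))) * g θ) {v : ℂ}
    (hv : ∀ θ, xc θ v - xc (2 * tau p i - θ) v = xc θ (p i) - xc (2 * tau p i - θ) (p i)) :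
    ∀ᵐ θ : ℝ, Gv ω g v (2 * tau p i - θ) = wt p χ i θ * Gv ω g v θ := by
  filter_upwards [h] with θ hθ
  unfold Gv
  rw [hθ, ← hv θ]
  have : dir (ω * xc (2 * tau p i - θ) v) * dir (ω * (xc θ v - xc (2 * tau p i - θ) v)) =
      dir (ω * xc θ v) := by
    rw [← dir_add]
    congr 1
    ring
  rw [← this]
  ring

/-! ### Countable sets -/

theorem countable_dir (c : ℂ) : {x : ℝ | dir x = c}.Countable := by
  by_cases h : ∃ x0, dir x0 = c
  · obtain ⟨x0, hx0⟩ := h
    refine (countable_range fun k : ℤ => x0 + k * (2 * π)).mono ?_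
    intro x hx
    have h1 : exp ((x : ℂ) * I) = exp ((x0 : ℂ) * I) := by
      have h2 : dir x = dir x0 := by rw [hx0]; exact hx
      exact h2
    obtain ⟨k, hk⟩ := Complex.exp_eq_exp_iff_exists_int.1 h1
    refine ⟨k, ?_⟩
    have h3 : (x : ℂ) = x0 + k * (2 * π) := by
      have h4 : (x : ℂ) * I = (x0 + k * (2 * π)) * I := by rw [hk]; ring
      exact mul_right_cancel₀ I_ne_zero h4
    have h5 : ((x : ℝ) : ℂ) = ((x0 + k * (2 * π) : ℝ) : ℂ) := by rw [h3]; push_cast; ring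
    exact (ofReal_injective h5).symm
  · push Not at h
    convert countable_empty
    rw [eq_empty_iff_forall_notMem]
    exact h

theorem countable_cos (c : ℝ) : {x : ℝ | Real.cos x = c}.Countable := by
  by_cases h : ∃ x0, Real.cos x0 = c
  · obtain ⟨x0, hx0⟩ := h
    refine ((countable_range fun k : ℤ => 2 * k * π + x0).union
      (countable_range fun k : ℤ => 2 * k * π - x0)).mono ?_
    intro x hx
    have h1 : Real.cos x0 = Real.cos x := by rw [hx0]; exact (hx : Real.cos x = c).symm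
    obtain ⟨k, hk | hk⟩ := Real.cos_eq_cos_iff.1 h1
    · exact Or.inl ⟨k, hk.symm⟩
    · exact Or.inr ⟨k, hk.symm⟩
  · push Not at h
    convert countable_empty
    rw [eq_empty_iff_forall_notMem]
    exact h

theorem countable_bad {C : Set ℂ} (hC : C.Countable) {ρ κ : ℝ} (hρ : ρ ≠ 0) :
    {θ : ℝ | dir (ρ * Real.cos (θ - κ)) ∈ C}.Countable := by
  have h1 : {x : ℝ | dir x ∈ C}.Countable := by
    have : {x : ℝ | dir x ∈ C} = ⋃ c ∈ C, {x : ℝ | dir x = c} := by
      ext x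
      simp
    rw [this]
    exact hC.biUnion fun c _ => countable_dir c
  have h2 : {y : ℝ | ρ * y ∈ {x : ℝ | dir x ∈ C}}.Countable :=
    h1.preimage_of_injOn (fun a _ b _ hab => mul_left_cancel₀ hρ hab)
  have h3 : {x : ℝ | Real.cos x ∈ {y : ℝ | ρ * y ∈ {x : ℝ | dir x ∈ C}}}.Countable := by
    have : {x : ℝ | Real.cos x ∈ {y : ℝ | ρ * y ∈ {x : ℝ | dir x ∈ C}}} =
        ⋃ c ∈ {y : ℝ | ρ * y ∈ {x : ℝ | dir x ∈ C}}, {x : ℝ | Real.cos x = c} := by
      ext x
      simp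
    rw [this]
    exact h2.biUnion fun c _ => countable_cos c
  exact h3.preimage_of_injOn (f := fun θ : ℝ => θ - κ) (fun a _ b _ hab => sub_left_injective hab)

/-! ### The angles of consecutive sides -/

theorem dir_eq_one_iff {x : ℝ} : dir (2 * x) = 1 ↔ Real.sin x = 0 := by
  constructor
  · intro h
    have h1 : Real.cos (2 * x) = 1 := by
      rw [← dir_re, h, one_re]
    rw [Real.cos_two_mul] at h1
    have h2 := Real.sin_sq_add_cos_sq x
    have h3 : Real.sin x ^ 2 = 0 := by linarith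
    exact pow_eq_zero_iff (two_ne_zero) |>.1 h3
  · intro h
    apply Complex.ext
    · rw [dir_re, Real.cos_two_mul, one_re]
      have h2 := Real.sin_sq_add_cos_sq x
      rw [h] at h2
      linarith
    · rw [dir_im, Real.sin_two_mul, h, one_im]
      ring

/-- consecutive sides are not parallel -/
theorem sin_tau_ne {p : Fin (n + 3) → ℂ} (hp : IsConvexPolygon p) (i : Fin (n + 3)) :
    Real.sin (tau p i - tau p (i + 1)) ≠ 0 := by
  have e1 : (i + 1 + 1 : Fin (n + 3)) ≠ i := by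
    intro h
    have h2 : i + 1 + 1 = i + 0 := by rw [h, add_zero]
    rw [add_assoc] at h2
    exact absurd (add_left_cancel h2) W174.PG.two_ne
  have e2 : (i + 1 + 1 : Fin (n + 3)) ≠ i + 1 := by
    intro h
    have h2 : i + 1 + 1 = i + 1 + 0 := by rw [h, add_zero]
    exact absurd (add_left_cancel h2) W174.PG.one_ne
  have hpos := hp.pos i (i + 1 + 1) e1 e2
  intro hs
  have hr : rate p i (tau p (i + 1)) = 0 := by
    rw [rate_eq]
    have : Real.sin (tau p (i + 1) - tau p i) = - Real.sin (tau p i - tau p (i + 1)) := by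
      rw [← Real.sin_neg]; congr 1; ring
    rw [this, hs]
    ring
  have h1 : lft (p i) (p (i + 1)) (p (i + 1 + 1)) =
      ‖p (i + 1 + 1) - p (i + 1)‖ * rate p i (tau p (i + 1)) := by
    have h2 : p (i + 1 + 1) = p (i + 1) + ‖p (i + 1 + 1) - p (i + 1)‖ • dir (tau p (i + 1)) := by
      have h3 : ‖p (i + 1 + 1) - p (i + 1)‖ • dir (tau p (i + 1)) = p (i + 1 + 1) - p (i + 1) := by
        rw [real_smul]
        exact norm_mul_exp_arg_mul_I _
      rw [h3]; ring
    have h4 := sf_add p i (p (i + 1)) ‖p (i + 1 + 1) - p (i + 1)‖ (tau p (i + 1))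
    rw [← h2] at h4
    have h5 : sf p i (p (i + 1)) = 0 := W174.PG.lft_right _ _
    rw [h5, zero_add] at h4
    exact h4
  rw [h1, hr, mul_zero] at hpos
  exact lt_irrefl _ hpos

theorem xc_add_angle (θ a : ℝ) (u : ℂ) :
    xc (θ + a) u = xc θ (conj (dir a) * u) := by
  unfold W803.BBD.xc
  rw [dir_add, map_mul]
  congr 1
  ring

/-- Eigenfunctions with nonzero frequency vanish: the function of the direction. -/
theorem zero_g (hB : S_Basic) {p : Fin (n + 3) → ℂ} (hp : IsConvexPolygon p)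
    {ω : ℝ} (hω : ω ≠ 0) {χ : Fin (n + 3) → ℂ} (hχ : ∀ i, ‖χ i‖ = 1) {g : ℝ → ℂ}
    (hg : ∀ i, ∀ᵐ θ : ℝ, g (2 * tau p i - θ) =
      wt p χ i θ * dir (ω * (xc θ (p i) - xc (2 * tau p i - θ) (p i))) * g θ) :
    ∀ᵐ θ : ℝ, g θ = 0 := by
  have hχ0 : ∀ i, χ i ≠ 0 := fun i h => by
    have := hχ i
    rw [h, norm_zero] at this
    exact zero_ne_one this
  -- three consecutive sides
  obtain ⟨i, -⟩ : ∃ i : Fin (n + 3), i = 0 := ⟨0, rfl⟩
  obtain ⟨j, hj⟩ : ∃ j : Fin (n + 3), j = i + 1 := ⟨_, rfl⟩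
  obtain ⟨k, hk⟩ : ∃ k : Fin (n + 3), k = j + 1 := ⟨_, rfl⟩
  obtain ⟨u, hu⟩ : ∃ u : ℂ, u = p k - p j := ⟨_, rfl⟩
  have hu0 : u ≠ 0 := by
    rw [hu, hk]
    exact sub_ne_zero.2 (side_ne hB hp j)
  have hsu : ∀ θ, xc (2 * tau p j - θ) u = xc θ u := by
    intro θ
    rw [hu, hk]
    exact xc_side p j θ
  obtain ⟨G, hG⟩ : ∃ G : ℝ → ℂ, G = Gv ω g (p j) := ⟨_, rfl⟩
  have r1 : ∀ᵐ θ : ℝ, G (2 * tau p i - θ) = wt p χ i θ * G θ := by
    rw [hG]
    refine Gv_refl (hg i) fun θ => ?_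
    have h1 := xc_side p i θ
    rw [xc_sub', xc_sub'] at h1
    rw [hj]
    linarith
  have r2 : ∀ᵐ θ : ℝ, G (2 * tau p j - θ) = wt p χ j θ * G θ := by
    rw [hG]
    exact Gv_refl (hg j) fun θ => rfl
  have r3' : ∀ᵐ θ : ℝ, Gv ω g (p k) (2 * tau p k - θ) = wt p χ k θ * Gv ω g (p k) θ :=
    Gv_refl (hg k) fun θ => rfl
  have hGk : ∀ θ, Gv ω g (p k) θ = dir (ω * xc θ u) * G θ := by
    intro θ
    have h1 : p k = p j + u := by rw [hu]; ring
    rw [h1, Gv_add, hG]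
  have r3 : ∀ᵐ θ : ℝ, G (2 * tau p k - θ) =
      wt p χ k θ * dir (ω * (xc θ u - xc (2 * tau p k - θ) u)) * G θ := by
    filter_upwards [r3'] with θ hθ
    rw [hGk, hGk] at hθ
    have h1 : dir (ω * (xc θ u - xc (2 * tau p k - θ) u)) =
        dir (-(ω * xc (2 * tau p k - θ) u)) * dir (ω * xc θ u) := by
      rw [← dir_add]
      congr 1
      ring
    have h2 : G (2 * tau p k - θ) = dir (-(ω * xc (2 * tau p k - θ) u)) *
        (dir (ω * xc (2 * tau p k - θ) u) * G (2 * tau p k - θ)) := by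
      rw [← mul_assoc, dir_neg_mul, one_mul]
    rw [h2, hθ, h1]
    ring
  obtain ⟨a, ha⟩ : ∃ a : ℝ, a = 2 * (tau p i - tau p j) := ⟨_, rfl⟩
  obtain ⟨b, hb⟩ : ∃ b : ℝ, b = 2 * (tau p k - tau p j) := ⟨_, rfl⟩
  have hmp : ∀ c : ℝ, Measure.QuasiMeasurePreserving (fun θ : ℝ => c - θ) volume volume :=
    fun c => (Measure.measurePreserving_sub_left volume c).quasiMeasurePreserving
  have hmt : ∀ c : ℝ, Measure.QuasiMeasurePreserving (fun θ : ℝ => θ + c) volume volume :=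
    fun c => (measurePreserving_add_right volume c).quasiMeasurePreserving
  -- rotation around `p j`
  have s1 : ∀ᵐ θ : ℝ, G (θ + a) = (wt p χ i (2 * tau p j - θ) * wt p χ j θ) * G θ := by
    filter_upwards [(hmp (2 * tau p j)).ae r1, r2] with θ h1 h2
    have e : 2 * tau p i - (2 * tau p j - θ) = θ + a := by rw [ha]; ring
    rw [e] at h1
    rw [h1, h2]
    ring
  have s2 : ∀ᵐ θ : ℝ, G (θ + b) = (wt p χ k (2 * tau p j - θ) * wt p χ j θ) *
      dir (ω * (xc θ u - xc (θ + b) u)) * G θ := by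
    filter_upwards [(hmp (2 * tau p j)).ae r3, r2] with θ h1 h2
    have e : 2 * tau p k - (2 * tau p j - θ) = θ + b := by rw [hb]; ring
    rw [e, hsu] at h1
    rw [h1, h2]
    ring
  have s1b := (hmt b).ae s1
  have s2a := (hmt a).ae s2
  -- the countable set of factors
  obtain ⟨W, hW⟩ : ∃ W : Set ℂ, W = range χ ∪ range (fun i => (χ i)⁻¹) := ⟨_, rfl⟩
  have hWc : W.Countable := by
    rw [hW]
    exact (countable_range _).union (countable_range _)
  have hwt : ∀ i θ, wt p χ i θ ∈ W := by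
    intro i θ
    rw [hW]
    unfold wt
    split_ifs
    · exact Or.inl ⟨i, rfl⟩
    · exact Or.inr ⟨i, rfl⟩
  have hwt0 : ∀ i θ, wt p χ i θ ≠ 0 := by
    intro i θ
    unfold wt
    split_ifs
    · exact hχ0 i
    · exact inv_ne_zero (hχ0 i)
  obtain ⟨W2, hW2⟩ : ∃ W2 : Set ℂ, W2 = image2 (· * ·) W W := ⟨_, rfl⟩
  have hW2c : W2.Countable := by rw [hW2]; exact hWc.image2 hWc _
  obtain ⟨W4, hW4⟩ : ∃ W4 : Set ℂ, W4 = image2 (· * ·) W2 W2 := ⟨_, rfl⟩
  have hW4c : W4.Countable := by rw [hW4]; exact hW2c.image2 hW2c _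
  obtain ⟨C, hC⟩ : ∃ C : Set ℂ, C = image2 (· / ·) W4 W4 := ⟨_, rfl⟩
  have hCc : C.Countable := by rw [hC]; exact hW4c.image2 hW4c _
  -- the phase
  obtain ⟨K, hK⟩ : ∃ K : ℂ, K = (conj (dir a) - 1) * (1 - conj (dir b)) * u := ⟨_, rfl⟩
  have hKH : ∀ θ, (xc (θ + a) u - xc (θ + a + b) u) - (xc θ u - xc (θ + b) u) = xc θ K := by
    intro θ
    rw [add_assoc θ a b, xc_add_angle θ a, xc_add_angle θ (a + b), xc_add_angle θ b,
      ← xc_sub', ← xc_sub', ← xc_sub', hK, dir_add, map_mul]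
    congr 1
    ring
  have hK0 : K ≠ 0 := by
    have hc : ∀ x : ℝ, conj (dir x) = 1 → dir x = 1 := by
      intro x hx
      have := congrArg conj hx
      rwa [conj_conj, map_one] at this
    rw [hK]
    refine mul_ne_zero (mul_ne_zero ?_ ?_) hu0
    · intro h
      have h1 := hc a (sub_eq_zero.1 h)
      rw [ha, dir_eq_one_iff] at h1
      apply sin_tau_ne hp i
      rw [← hj]
      exact h1
    · intro h
      have h1 := hc b (sub_eq_zero.1 h).symm
      rw [hb, dir_eq_one_iff] at h1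
      apply sin_tau_ne hp j
      rw [← hk]
      have : Real.sin (tau p j - tau p k) = - Real.sin (tau p k - tau p j) := by
        rw [← Real.sin_neg]; congr 1; ring
      rw [this, h1, neg_zero]
  have hcount : {θ : ℝ | dir (ω * xc θ K) ∈ C}.Countable := by
    have h1 := countable_bad hCc (ρ := ω * ‖K‖) (κ := arg K)
      (mul_ne_zero hω (norm_ne_zero_iff.2 hK0))
    have h2 : {θ : ℝ | dir (ω * xc θ K) ∈ C} = {θ : ℝ | dir (ω * ‖K‖ * Real.cos (θ - arg K)) ∈ C} := by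
      ext θ
      rw [mem_ofPred_eq, mem_ofPred_eq, xc_polar, mul_assoc]
    rw [h2]
    exact h1
  have hnull : ∀ᵐ θ : ℝ, dir (ω * xc θ K) ∉ C := by
    rw [ae_iff]
    simp only [not_not]
    exact hcount.measure_zero _
  filter_upwards [s1, s2, s1b, s2a, hnull] with θ t1 t2 t3 t4 t5
  have hGz : G θ = 0 := by
    by_contra hne
    apply t5
    rw [t1] at t4
    rw [t2] at t3
    have e : θ + b + a = θ + a + b := by ring
    rw [e, t4] at t3
    obtain ⟨A1, hA1⟩ : ∃ A1, A1 = wt p χ i (2 * tau p j - θ) * wt p χ j θ := ⟨_, rfl⟩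
    obtain ⟨A2, hA2⟩ : ∃ A2, A2 = wt p χ k (2 * tau p j - (θ + a)) * wt p χ j (θ + a) := ⟨_, rfl⟩
    obtain ⟨A3, hA3⟩ : ∃ A3, A3 = wt p χ i (2 * tau p j - (θ + b)) * wt p χ j (θ + b) := ⟨_, rfl⟩
    obtain ⟨A4, hA4⟩ : ∃ A4, A4 = wt p χ k (2 * tau p j - θ) * wt p χ j θ := ⟨_, rfl⟩
    have m2 : ∀ x ∈ W, ∀ y ∈ W, x * y ∈ W2 := by
      intro x hx y hy
      rw [hW2]
      exact mem_image2_of_mem hx hy
    have m4 : ∀ x ∈ W2, ∀ y ∈ W2, x * y ∈ W4 := by
      intro x hx y hy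
      rw [hW4]
      exact mem_image2_of_mem hx hy
    have q1 : A1 ∈ W2 := by rw [hA1]; exact m2 _ (hwt _ _) _ (hwt _ _)
    have q2 : A2 ∈ W2 := by rw [hA2]; exact m2 _ (hwt _ _) _ (hwt _ _)
    have q3 : A3 ∈ W2 := by rw [hA3]; exact m2 _ (hwt _ _) _ (hwt _ _)
    have q4 : A4 ∈ W2 := by rw [hA4]; exact m2 _ (hwt _ _) _ (hwt _ _)
    have z1 : A1 ≠ 0 := by rw [hA1]; exact mul_ne_zero (hwt0 _ _) (hwt0 _ _)
    have z2 : A2 ≠ 0 := by rw [hA2]; exact mul_ne_zero (hwt0 _ _) (hwt0 _ _)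
    rw [← hA1, ← hA2, ← hA3, ← hA4] at t3
    -- cancel `G θ`
    have t6 : A2 * dir (ω * (xc (θ + a) u - xc (θ + a + b) u)) * A1 =
        A3 * (A4 * dir (ω * (xc θ u - xc (θ + b) u))) := by
      apply mul_right_cancel₀ hne
      linear_combination t3
    have t7 : dir (ω * xc θ K) = A3 * A4 / (A2 * A1) := by
      rw [eq_div_iff (mul_ne_zero z2 z1), ← hKH θ]
      have h1 : dir (ω * ((xc (θ + a) u - xc (θ + a + b) u) - (xc θ u - xc (θ + b) u))) =
          dir (-(ω * (xc θ u - xc (θ + b) u))) * dir (ω * (xc (θ + a) u - xc (θ + a + b) u)) := by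
        rw [← dir_add]
        congr 1
        ring
      have h2 := dir_neg_mul (ω * (xc θ u - xc (θ + b) u))
      rw [h1]
      linear_combination dir (-(ω * (xc θ u - xc (θ + b) u))) * t6 + A3 * A4 * h2
    rw [t7, hC]
    exact mem_image2_of_mem (m4 _ q3 _ q4) (m4 _ q2 _ q1)
  rw [hG, Gv] at hGz
  rcases mul_eq_zero.1 hGz with h | h
  · exfalso
    have := W780.BB.norm_dir (ω * xc θ (p j))
    rw [h, norm_zero] at this
    exact zero_ne_one this
  · exact h

end Pool.Agent.TH578.BE
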