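import Pool.Agent.W780.BB.Defs

set_option autoImplicit false

/-!
Eigenfunctions of the billiard in a convex polygon: definitions. Polygons, their regions and angles
are defined in `W780.PG.Defs`; states, directions and the phase space in `W780.BB.Defs`.
-/

namespace Pool.Agent.TH578.BE

open Complex Set MeasureTheory Pool.Agent.W780.PG Pool.Agent.W780.BB

open scoped Real

/-- `f` is an eigenfunction of the billiard in the region of `p`, with frequency `ω` and weight
`χ i` for each reflection in side `i`. The value does not change if `2 π` is added to the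
direction angle (`periodic`), it is multiplied by `exp (i ω s)` under free motion for the time `s`
inside the region (`free`), and by `χ i * exp (i ω (s + r))` when a free motion for the time `s`
ends in an inner point `y` of side `i`, where the point is reflected elastically, and is followed
by a free motion for the time `r` (`reflect`). Nothing is required of the motion after a vertex has
been hit. -/
structure IsEigenfunction {n : ℕ} (p : Fin (n + 3) → ℂ) (ω : ℝ) (χ : Fin (n + 3) → ℂ)
    (f : ℂ × ℝ → ℂ) : Prop where
  periodic : ∀ (z : ℂ) (θ : ℝ), f (z, θ + 2 * π) = f (z, θ)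
  free : ∀ (z : ℂ) (θ s : ℝ), z ∈ region p → z + s • dir θ ∈ region p →
    f (z + s • dir θ, θ) = exp (((ω * s : ℝ) : ℂ) * I) * f (z, θ)
  reflect : ∀ i, ∀ y ∈ openSegment ℝ (p i) (p (i + 1)), ∀ θ s r : ℝ, 0 < s → 0 < r →
    y - s • dir θ ∈ region p → y + r • dir (2 * tau p i - θ) ∈ region p →
    f (y + r • dir (2 * tau p i - θ), 2 * tau p i - θ) =
      χ i * exp (((ω * (s + r) : ℝ) : ℂ) * I) * f (y - s • dir θ, θ)

/-- `θ ↦ f (z, θ)` has finite variation, on average over the position `z`: turning all directions by
an angle `h` changes `f` by at most `C h` in the mean. No integrability of `f` is required. -/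
def FiniteVariation {n : ℕ} (p : Fin (n + 3) → ℂ) (f : ℂ × ℝ → ℂ) : Prop :=
  ∃ C : ℝ, ∀ h : ℝ, 0 < h → h < 1 →
    ∫⁻ x in phase p, ENNReal.ofReal ‖f (x.1, x.2 + h) - f x‖ ≤ ENNReal.ofReal (C * h)

end Pool.Agent.TH578.BE
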