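import Pool.Agent.W74.BB.Bad
import Pool.Agent.W345.BB.Exist
import Pool.Agent.W780.BB.Tools

set_option autoImplicit false

/-!
Effective versions of two parts: the number of reflections is at most linear in the time, the
number of unfolded vertices at most exponential, and the bad set has measure at most quadratic
in the angle.
-/

namespace Pool.Agent.TH578.BE

open Complex Set MeasureTheory Filter Topology Pool.Agent.W780.PG Pool.Agent.W780.BB
open Pool.Agent.W74.BB (G G_meas P key vol_rect vol_line bad_subset dir_mul_conj)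

open scoped Real ComplexConjugate

variable {n : ℕ}

/-! ### The measure of the directions close to a given one -/

theorem im_formula (c : ℂ) (θ : ℝ) : (c * conj (dir θ)).im = ‖c‖ * Real.sin (arg c - θ) := by
  have h5 : c * conj (dir θ) = ‖c‖ * exp (((arg c - θ : ℝ) : ℂ) * I) := by
    conv_lhs => rw [← norm_mul_exp_arg_mul_I c]
    unfold dir
    rw [← exp_conj, mul_assoc, ← exp_add]
    congr 2
    simp
    ring
  rw [h5, im_ofReal_mul, exp_ofReal_mul_I_im]

theorem vol_sin (κ s : ℝ) (hs : 0 ≤ s) :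
    volume ({θ : ℝ | |Real.sin (κ - θ)| ≤ s} ∩ Ico 0 (2 * π)) ≤ ENNReal.ofReal (2 * π * s) := by
  have hpi := Real.pi_pos
  have hm : MeasurableSet {θ : ℝ | |Real.sin (κ - θ)| ≤ s} := by
    have h1 : Continuous (fun θ : ℝ => |Real.sin (κ - θ)|) := by fun_prop
    exact h1.measurable measurableSet_Iic
  have hp : ∀ θ, θ + 2 * π ∈ {θ : ℝ | |Real.sin (κ - θ)| ≤ s} ↔
      θ ∈ {θ : ℝ | |Real.sin (κ - θ)| ≤ s} := by
    intro θ
    rw [mem_ofPred_eq, mem_ofPred_eq, show κ - (θ + 2 * π) = κ - θ - 2 * π by ring,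
      Real.sin_sub_two_pi]
  rw [← strip1 _ hm hp (κ - π / 2)]
  have hsub : {θ : ℝ | |Real.sin (κ - θ)| ≤ s} ∩ Ico (κ - π / 2) (κ - π / 2 + 2 * π) ⊆
      Icc (κ - π / 2 * s) (κ + π / 2 * s) ∪ Icc (κ + π - π / 2 * s) (κ + π + π / 2 * s) := by
    rintro θ ⟨h1, h2, h3⟩
    have h1' : |Real.sin (κ - θ)| ≤ s := h1
    have hb : ∀ x : ℝ, |x| ≤ π / 2 → |Real.sin x| ≤ s → |x| ≤ π / 2 * s := by
      intro x hx hxs
      have h4 := Real.mul_abs_le_abs_sin hx
      have h5 : 2 / π * |x| ≤ s := h4.trans hxs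
      calc |x| = π / 2 * (2 / π * |x|) := by field_simp
        _ ≤ π / 2 * s := by gcongr
    by_cases h4 : θ ≤ κ + π / 2
    · left
      have h5 := hb (κ - θ) (abs_le.2 ⟨by linarith, by linarith⟩) h1'
      rw [abs_le] at h5
      exact ⟨by linarith, by linarith⟩
    · right
      push Not at h4
      have h6 : |Real.sin (κ + π - θ)| ≤ s := by
        have : κ + π - θ = (κ - θ) + π := by ring
        rw [this, Real.sin_add_pi, abs_neg]
        exact h1'
      have h5 := hb (κ + π - θ) (abs_le.2 ⟨by linarith, by linarith⟩) h6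
      rw [abs_le] at h5
      exact ⟨by linarith, by linarith⟩
  refine (measure_mono hsub).trans ((measure_union_le _ _).trans ?_)
  rw [Real.volume_Icc, Real.volume_Icc, ← ENNReal.ofReal_add (by nlinarith) (by nlinarith)]
  apply ENNReal.ofReal_le_ofReal
  linarith

theorem vol_G {c : ℂ} (hc : c ≠ 0) {δ : ℝ} (hδ : 0 ≤ δ) :
    volume (G c δ) ≤ ENNReal.ofReal (2 * π * (δ / ‖c‖)) := by
  have hn : 0 < ‖c‖ := norm_pos_iff.2 hc
  refine (measure_mono ?_).trans (vol_sin (arg c) (δ / ‖c‖) (by positivity))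
  rintro θ ⟨h1, h2⟩
  refine ⟨?_, h1⟩
  rw [im_formula, abs_mul, abs_of_pos hn] at h2
  rw [mem_ofPred_eq, le_div_iff₀ hn, mul_comm]
  exact h2

theorem vol_P (a b : ℂ) {T h : ℝ} (hT : 0 < T) (hh : 0 < h) :
    volume (P a b T h) ≤ ENNReal.ofReal (2 * π * T ^ 2 * h ^ 2) := by
  have hpi := Real.pi_pos
  by_cases hab : a = b
  · subst hab
    have h1 : P a a T h ⊆ {x : ℂ × ℝ | x.2 ∈ (univ : Set ℝ) ∧
        (a - x.1) * conj (dir x.2) ∈ {w : ℂ | w.re = 0}} := by
      intro x hx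
      obtain ⟨-, h2, h3⟩ := hx
      rw [mem_reProdIm] at h2 h3
      exact ⟨trivial, le_antisymm h2.1.2 h3.1.1⟩
    refine (measure_mono h1).trans ?_
    rw [key a univ {w : ℂ | w.re = 0} MeasurableSet.univ
      (measurable_re (measurableSet_singleton 0)), vol_line, zero_mul]
    exact zero_le
  · have hc : b - a ≠ 0 := sub_ne_zero.2 (Ne.symm hab)
    have hn : 0 < ‖b - a‖ := norm_pos_iff.2 hc
    have hs1 : Real.sin h ≤ h := Real.sin_le hh.le
    have h9 : T * Real.sin h ≤ T * h := mul_le_mul_of_nonneg_left hs1 hT.le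
    have h4 : P a b T h ⊆ {x : ℂ × ℝ | x.2 ∈ G (b - a) (T * h) ∧
        (a - x.1) * conj (dir x.2) ∈ Icc (-‖b - a‖) 0 ×ℂ Icc 0 (T * h)} := by
      intro x hx
      obtain ⟨h5, h6, h7⟩ := hx
      have h8 : (b - a) * conj (dir x.2) = (b - x.1) * conj (dir x.2) -
        (a - x.1) * conj (dir x.2) := by ring
      rw [mem_reProdIm] at h6 h7
      refine ⟨⟨h5, ?_⟩, ?_⟩
      · rw [h8, sub_im, abs_le]
        constructor
        · linarith [h6.2.2, h7.2.1]
        · linarith [h6.2.1, h7.2.2]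
      · rw [mem_reProdIm]
        refine ⟨⟨?_, h6.1.2⟩, h6.2.1, by linarith [h6.2.2]⟩
        have h10 : ((b - a) * conj (dir x.2)).re ≤ ‖b - a‖ := by
          refine (re_le_norm _).trans ?_
          rw [norm_mul, RCLike.norm_conj, W74.BB.norm_dir, mul_one]
        rw [h8, sub_re] at h10
        linarith [h7.1.1]
    refine (measure_mono h4).trans ?_
    have hmE : MeasurableSet (Icc (-‖b - a‖) 0 ×ℂ Icc 0 (T * h)) :=
      (measurable_re measurableSet_Icc).inter (measurable_im measurableSet_Icc)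
    rw [W74.BB.key a _ _ (G_meas _ _) hmE, vol_rect]
    calc ENNReal.ofReal (0 - -‖b - a‖) * ENNReal.ofReal (T * h - 0) * volume (G (b - a) (T * h))
        ≤ ENNReal.ofReal (0 - -‖b - a‖) * ENNReal.ofReal (T * h - 0) *
          ENNReal.ofReal (2 * π * (T * h / ‖b - a‖)) := by
          gcongr
          exact vol_G hc (by positivity)
      _ = ENNReal.ofReal (2 * π * T ^ 2 * h ^ 2) := by
          rw [← ENNReal.ofReal_mul (by linarith), ← ENNReal.ofReal_mul (by
            have : 0 ≤ T * h := by positivity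
            have h2 : (0 : ℝ) - -‖b - a‖ = ‖b - a‖ := by ring
            rw [h2, sub_zero]
            positivity)]
          congr 1
          field_simp
          ring

theorem bad_eff {V : Set ℂ} (hV : V.Finite) {N : ℝ} (hN : (hV.toFinset.card : ℝ) ≤ N) {T h : ℝ}
    (hT : 0 < T) (hh : 0 < h) (hh1 : h ≤ 1) :
    volume (Bad V T h) ≤ ENNReal.ofReal (N ^ 2 * (2 * π * T ^ 2 * h ^ 2)) := by
  have hpi := Real.pi_pos
  have h5 : Bad V T h ⊆ ⋃ a ∈ hV.toFinset, ⋃ b ∈ hV.toFinset, P a b T h := by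
    have := bad_subset V T h hT hh hh1
    simpa using this
  have hN0 : (0 : ℝ) ≤ hV.toFinset.card := Nat.cast_nonneg _
  calc volume (Bad V T h) ≤ volume (⋃ a ∈ hV.toFinset, ⋃ b ∈ hV.toFinset, P a b T h) :=
        measure_mono h5
    _ ≤ ∑ a ∈ hV.toFinset, volume (⋃ b ∈ hV.toFinset, P a b T h) :=
        measure_biUnion_finset_le _ _
    _ ≤ ∑ a ∈ hV.toFinset, ∑ b ∈ hV.toFinset, volume (P a b T h) :=
        Finset.sum_le_sum fun a _ => measure_biUnion_finset_le _ _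
    _ ≤ ∑ a ∈ hV.toFinset, ∑ b ∈ hV.toFinset, ENNReal.ofReal (2 * π * T ^ 2 * h ^ 2) :=
        Finset.sum_le_sum fun a _ => Finset.sum_le_sum fun b _ => vol_P a b hT hh
    _ = ENNReal.ofReal ((hV.toFinset.card : ℝ) * (hV.toFinset.card * (2 * π * T ^ 2 * h ^ 2))) := by
        rw [Finset.sum_const, Finset.sum_const, ENNReal.ofReal_mul hN0,
          ENNReal.ofReal_mul hN0, ENNReal.ofReal_natCast, nsmul_eq_mul, nsmul_eq_mul]
    _ ≤ ENNReal.ofReal (N ^ 2 * (2 * π * T ^ 2 * h ^ 2)) := by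
        apply ENNReal.ofReal_le_ofReal
        rw [sq N, mul_assoc N N]
        have hN1 : 0 ≤ N := hN0.trans hN
        gcongr

/-! ### The number of reflections -/

theorem unif_lin (hU : S_Unif) {p : Fin (n + 3) → ℂ} (hp : IsConvexPolygon p) :
    ∃ q : ℕ, 0 < q ∧ ∀ (T : ℝ), ∀ (u : ℕ → Fin (n + 3)) (y : ℕ → ℂ) (θ l : ℕ → ℝ) (m : ℕ),
      (∀ k ≤ m, y k ∈ side p (u k)) →
      (∀ k < m, 0 < l k ∧ y (k + 1) = y k + l k • dir (θ k) ∧
        θ (k + 1) = 2 * tau p (u (k + 1)) - θ k ∧ u (k + 1) ≠ u k) →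
      ∑ k ∈ Finset.range m, l k ≤ T → m ≤ q * (⌊T⌋₊ + 1) := by
  obtain ⟨K, hK⟩ := hU n p hp 1
  refine ⟨K + 1, Nat.succ_pos K, fun T u y θ l m h1 h2 h3 => ?_⟩
  -- blocks
  have hblock : ∀ a : ℕ, a + (K + 1) ≤ m → 1 ≤ ∑ k ∈ Finset.range (K + 1), l (a + k) := by
    intro a ha
    by_contra hcon
    push Not at hcon
    have := hK (fun k => u (a + k)) (fun k => y (a + k)) (fun k => θ (a + k))
      (fun k => l (a + k)) (K + 1) (fun k hk => h1 (a + k) (by omega))
      (fun k hk => h2 (a + k) (by omega)) hcon.le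
    omega
  have hsum : ∀ j : ℕ, j * (K + 1) ≤ m → (j : ℝ) ≤ ∑ k ∈ Finset.range (j * (K + 1)), l k := by
    intro j
    induction j with
    | zero => intro _; simp
    | succ j ih =>
      intro hj
      have e : (j + 1) * (K + 1) = j * (K + 1) + (K + 1) := by ring
      rw [e] at hj ⊢
      have h4 := ih (by omega)
      have h5 := hblock (j * (K + 1)) hj
      rw [Finset.sum_range_add]
      push_cast
      linarith
  have hj := hsum (m / (K + 1)) (Nat.div_mul_le_self m (K + 1))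
  have hle : ∑ k ∈ Finset.range (m / (K + 1) * (K + 1)), l k ≤ ∑ k ∈ Finset.range m, l k := by
    refine Finset.sum_le_sum_of_subset_of_nonneg ?_ ?_
    · exact Finset.range_mono (Nat.div_mul_le_self m (K + 1))
    · intro k hk _
      exact (h2 k (Finset.mem_range.1 hk)).1.le
  have hT : ((m / (K + 1) : ℕ) : ℝ) ≤ T := hj.trans (hle.trans h3)
  have hfl : m / (K + 1) ≤ ⌊T⌋₊ := Nat.le_floor hT
  have h6 : m < (K + 1) * (m / (K + 1) + 1) := Nat.lt_mul_div_succ m (Nat.succ_pos K)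
  calc m ≤ (K + 1) * (m / (K + 1) + 1) := h6.le
    _ ≤ (K + 1) * (⌊T⌋₊ + 1) := by gcongr

theorem exist_lin (hR : S_Ref) (hX : S_Exit) (hU : S_Unif) {p : Fin (n + 3) → ℂ}
    (hp : IsConvexPolygon p) :
    ∃ q : ℕ, 0 < q ∧ ∀ T : ℝ, ∀ z ∈ reg p, ∀ A : ℂ, ‖A - z‖ ≤ T →
      (∀ w j, uf p w (p j) ∉ segment ℝ z A) → (∀ w i, sf p i (fp p w A) ≠ 0) →
      ∃ w : List (Fin (n + 3)), w.length ≤ q * (⌊T⌋₊ + 1) + 1 ∧ Ch p w z A := by
  obtain ⟨q, hq0, hq⟩ := unif_lin hU hp
  refine ⟨q, hq0, fun T z hz A hA h1 h2 => ?_⟩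
  have hAe : A = z + ‖A - z‖ • dir (arg (A - z)) := by
    unfold dir
    rw [Complex.real_smul, Complex.norm_mul_exp_arg_mul_I]
    ring
  have := W345.BB.main hR hX hp (q * (⌊T⌋₊ + 1) + 1) z ‖A - z‖ (arg (A - z)) (norm_nonneg _)
    (Or.inl hz) (by rw [← hAe]; exact ⟨h1, h2⟩)
  rw [← hAe] at this
  rcases this with h | ⟨u, y, φ, l, l₁, q1, q2, q3, q4, q5, q6, q7⟩
  · exact h
  · exfalso
    have := hq T u y φ l (q * (⌊T⌋₊ + 1) + 1) q1 q2 (by linarith)
    omega

/-! ### The number of unfolded vertices -/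

theorem card_VK {p : Fin (n + 3) → ℂ} (K : ℕ) (hV : (VK p K).Finite) :
    hV.toFinset.card ≤ (K + 1) * (n + 3) ^ K * (n + 3) := by
  classical
  set F : Fin (K + 1) × (Fin K → Fin (n + 3)) × Fin (n + 3) → ℂ := fun x =>
    uf p ((List.ofFn x.2.1).take x.1) (p x.2.2) with hF
  have hsub : hV.toFinset ⊆ Finset.univ.image F := by
    intro a ha
    rw [Finite.mem_toFinset] at ha
    obtain ⟨w, hw, j, rfl⟩ := ha
    rw [Finset.mem_image]
    refine ⟨(⟨w.length, by omega⟩, fun k => w.getD k 0, j), Finset.mem_univ _, ?_⟩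
    rw [hF]
    simp only
    congr 1
    apply List.ext_getElem
    · simp [hw]
    · intro k h1 h2
      simp [h2]
  refine (Finset.card_le_card hsub).trans (Finset.card_image_le.trans ?_)
  rw [Finset.card_univ, Fintype.card_prod, Fintype.card_prod, Fintype.card_fin, Fintype.card_fin,
    Fintype.card_fun, Fintype.card_fin, Fintype.card_fin]
  apply le_of_eq
  ring

/-- Existence of itineraries, and at most exponentially many unfolded vertices. -/
theorem exist_exp (hR : S_Ref) (hX : S_Exit) (hU : S_Unif) {p : Fin (n + 3) → ℂ}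
    (hp : IsConvexPolygon p) :
    ∃ B : ℝ, 0 < B ∧ ∀ T : ℝ, 0 ≤ T → ∃ K : ℕ,
      (∀ z ∈ reg p, ∀ A : ℂ, ‖A - z‖ ≤ T →
      (∀ w j, uf p w (p j) ∉ segment ℝ z A) → (∀ w i, sf p i (fp p w A) ≠ 0) →
      ∃ w : List (Fin (n + 3)), w.length ≤ K ∧ Ch p w z A) ∧
      ∃ hV : (VK p K).Finite, (hV.toFinset.card : ℝ) ≤ Real.exp (B * (T + 1)) := by
  obtain ⟨q, hq0, hq⟩ := exist_lin hR hX hU hp
  set M : ℝ := (n : ℝ) + 3 with hM
  have hM1 : 1 ≤ M := by rw [hM]; have : (0 : ℝ) ≤ n := Nat.cast_nonneg n; linarith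
  have hM0 : 0 < M := by linarith
  have hlog : 0 ≤ Real.log M := Real.log_nonneg hM1
  refine ⟨(q + 2) * (1 + Real.log M), by positivity, fun T hT => ?_⟩
  obtain ⟨-, -, -, -, -, -, -, -, -, -, -, hfin⟩ := hR n p hp
  refine ⟨q * (⌊T⌋₊ + 1) + 1, hq T, hfin _, ?_⟩
  obtain ⟨K, hK⟩ : ∃ K : ℕ, K = q * (⌊T⌋₊ + 1) + 1 := ⟨_, rfl⟩
  rw [← hK]
  have h1 := card_VK K (hfin K)
  have h2 : ((hfin K).toFinset.card : ℝ) ≤ ((K : ℝ) + 1) * M ^ (K + 1) := by
    calc ((hfin K).toFinset.card : ℝ) ≤ (((K + 1) * (n + 3) ^ K * (n + 3) : ℕ) : ℝ) := by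
          exact_mod_cast h1
      _ = ((K : ℝ) + 1) * M ^ (K + 1) := by
          rw [hM]; push_cast; ring
  have h3 : ((K : ℝ) + 1) ≤ Real.exp ((K : ℝ) + 1) := by
    linarith [Real.add_one_le_exp ((K : ℝ) + 1)]
  have h4 : M ^ (K + 1) = Real.exp (((K : ℝ) + 1) * Real.log M) := by
    rw [mul_comm, Real.exp_mul, Real.exp_log hM0]
    norm_cast
  have h5 : (K : ℝ) + 1 ≤ (q + 2) * (T + 1) := by
    have h6 : (⌊T⌋₊ : ℝ) ≤ T := Nat.floor_le hT
    rw [hK]
    push_cast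
    have hq' : (0 : ℝ) ≤ q := Nat.cast_nonneg q
    nlinarith
  calc ((hfin K).toFinset.card : ℝ) ≤ ((K : ℝ) + 1) * M ^ (K + 1) := h2
    _ ≤ Real.exp ((K : ℝ) + 1) * Real.exp (((K : ℝ) + 1) * Real.log M) := by
        rw [h4]
        gcongr
    _ = Real.exp (((K : ℝ) + 1) * (1 + Real.log M)) := by
        rw [← Real.exp_add]
        congr 1
        ring
    _ ≤ Real.exp (((q + 2) * (T + 1)) * (1 + Real.log M)) := by
        apply Real.exp_le_exp.2
        exact mul_le_mul_of_nonneg_right h5 (by linarith)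
    _ = Real.exp ((q + 2) * (1 + Real.log M) * (T + 1)) := by
        congr 1
        ring

end Pool.Agent.TH578.BE
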