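import Pool.Agent.TH578.BE.Alg
import Pool.Agent.TH578.BE.Jump
import Pool.Agent.W780.BB.Final

set_option autoImplicit false

/-!
Assembly.
-/

namespace Pool.Agent.TH578.BE

open Complex Set MeasureTheory Filter Topology Pool.Agent.W780.PG Pool.Agent.W780.BB
open Pool.Agent.W803.BBD (xc)
open Pool.Agent.W101.BB (rate sf_add rate_refl rate_eq cont_sf ae_rate)

open scoped Real ComplexConjugate

variable {n : ℕ}

/-! ### Making functions bounded -/

/-- compression to the unit disc -/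
noncomputable def cp (v : ℂ) : ℂ := (1 + ‖v‖)⁻¹ • v

/-- the inverse of the compression -/
noncomputable def ci (u : ℂ) : ℂ := (1 - ‖u‖)⁻¹ • u

theorem norm_cp (v : ℂ) : ‖cp v‖ = ‖v‖ / (1 + ‖v‖) := by
  have h : 0 < 1 + ‖v‖ := by positivity
  unfold cp
  rw [norm_smul, norm_inv, Real.norm_eq_abs, abs_of_pos h, inv_mul_eq_div]

theorem cp_le (v : ℂ) : ‖cp v‖ ≤ 1 := by
  have h : 0 < 1 + ‖v‖ := by positivity
  rw [norm_cp, div_le_one h]
  linarith

theorem cp_mul {c : ℂ} (hc : ‖c‖ = 1) (v : ℂ) : cp (c * v) = c * cp v := by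
  unfold cp
  rw [norm_mul, hc, one_mul, mul_smul_comm]

theorem ci_cp (v : ℂ) : ci (cp v) = v := by
  have h : 0 < 1 + ‖v‖ := by positivity
  unfold ci
  rw [norm_cp]
  have h1 : 1 - ‖v‖ / (1 + ‖v‖) = (1 + ‖v‖)⁻¹ := by field_simp; ring
  rw [h1, inv_inv]
  unfold cp
  rw [smul_smul, mul_inv_cancel₀ h.ne', one_smul]

theorem cp_eq_zero {v : ℂ} (h : cp v = 0) : v = 0 := by
  have := ci_cp v
  rw [h] at this
  rw [← this]
  unfold ci
  rw [smul_zero]

theorem cp_lip (v w : ℂ) : ‖cp v - cp w‖ ≤ 2 * ‖v - w‖ := by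
  have hv : 0 < 1 + ‖v‖ := by positivity
  have hw : 0 < 1 + ‖w‖ := by positivity
  have e : cp v - cp w = (1 + ‖v‖)⁻¹ • (v - w) + ((1 + ‖v‖)⁻¹ - (1 + ‖w‖)⁻¹) • w := by
    unfold cp
    rw [smul_sub, sub_smul]
    abel
  rw [e]
  refine (norm_add_le _ _).trans ?_
  rw [norm_smul, norm_smul, norm_inv, Real.norm_eq_abs, abs_of_pos hv, Real.norm_eq_abs]
  have h1 : (1 + ‖v‖)⁻¹ * ‖v - w‖ ≤ ‖v - w‖ := by
    have : (1 + ‖v‖)⁻¹ ≤ 1 := inv_le_one_of_one_le₀ (by linarith [norm_nonneg v])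
    calc (1 + ‖v‖)⁻¹ * ‖v - w‖ ≤ 1 * ‖v - w‖ := by gcongr
      _ = ‖v - w‖ := one_mul _
  have h2 : (1 + ‖v‖)⁻¹ - (1 + ‖w‖)⁻¹ = (‖w‖ - ‖v‖) / ((1 + ‖v‖) * (1 + ‖w‖)) := by
    field_simp
    ring
  have h3 : |(1 + ‖v‖)⁻¹ - (1 + ‖w‖)⁻¹| * ‖w‖ ≤ ‖v - w‖ := by
    rw [h2, abs_div, abs_of_pos (mul_pos hv hw), div_mul_eq_mul_div, div_le_iff₀ (mul_pos hv hw)]
    have h4 : |‖w‖ - ‖v‖| ≤ ‖v - w‖ := by
      rw [norm_sub_rev]
      exact abs_norm_sub_norm_le _ _
    have h5 : ‖w‖ ≤ (1 + ‖v‖) * (1 + ‖w‖) := by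
      nlinarith [norm_nonneg v, norm_nonneg w, mul_nonneg (norm_nonneg v) (norm_nonneg w)]
    calc |‖w‖ - ‖v‖| * ‖w‖ ≤ ‖v - w‖ * ((1 + ‖v‖) * (1 + ‖w‖)) := by gcongr
      _ = ‖v - w‖ * ((1 + ‖v‖) * (1 + ‖w‖)) := rfl
  linarith

theorem meas_cp : Measurable cp := by
  unfold cp
  have : Measurable (fun v : ℂ => (1 + ‖v‖)⁻¹) := by fun_prop
  exact this.smul measurable_id

theorem meas_ci : Measurable ci := by
  unfold ci
  have : Measurable (fun v : ℂ => (1 - ‖v‖)⁻¹) := by fun_prop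
  exact this.smul measurable_id

theorem eigen_cp {p : Fin (n + 3) → ℂ} {ω : ℝ} {χ : Fin (n + 3) → ℂ} (hχ : ∀ i, ‖χ i‖ = 1)
    {f : ℂ × ℝ → ℂ} (h : IsEigenfunction p ω χ f) : IsEigenfunction p ω χ (fun x => cp (f x)) := by
  refine ⟨?_, ?_, ?_⟩
  · intro z θ
    rw [h.periodic]
  · intro z θ s h1 h2
    rw [h.free z θ s h1 h2, dir_def, cp_mul (W780.BB.norm_dir (ω * s))]
  · intro i y hy θ s r hs hr h1 h2
    rw [h.reflect i y hy θ s r hs hr h1 h2, cp_mul]
    rw [norm_mul, hχ i, one_mul]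
    exact W780.BB.norm_dir (ω * (s + r))

/-! ### Functions invariant under two reflections -/

theorem rot_const (hRot : S_Rot) {h : ℝ → ℂ} (hm : Measurable h)
    (hper : ∀ θ, h (θ + 2 * π) = h θ) {a b : ℝ} (ha : ∀ᵐ θ : ℝ, h (2 * a - θ) = h θ)
    (hb : ∀ᵐ θ : ℝ, h (2 * b - θ) = h θ) (irr : Irrational ((a - b) / π)) :
    ∃ c : ℂ, ∀ᵐ θ : ℝ, h θ = c := by
  have hU : ∀ U : Set ℂ, MeasurableSet U →
      (∀ᵐ θ : ℝ, h θ ∈ U) ∨ (∀ᵐ θ : ℝ, h θ ∉ U) := by
    intro U hUm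
    rcases hRot (h ⁻¹' U) a b (hm hUm) (fun θ => by simp only [mem_preimage, hper])
      (by filter_upwards [ha] with θ hθ; simp only [mem_preimage, hθ])
      (by filter_upwards [hb] with θ hθ; simp only [mem_preimage, hθ]) irr with h1 | h1
    · right
      exact measure_eq_zero_iff_ae_notMem.1 h1
    · left
      rw [ae_iff]
      exact h1
  obtain ⟨c, hc⟩ := Filter.exists_eventuallyEq_const_of_forall_separating
    (l := ae (volume : Measure ℝ)) (f := h) MeasurableSet hU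
  exact ⟨c, hc⟩

theorem wt_sw (hB : S_Basic) {p : Fin (n + 3) → ℂ} (hp : IsConvexPolygon p)
    (χ : Fin (n + 3) → ℂ) (i : Fin (n + 3)) (θ : ℝ) : wt p χ i θ = sw (χ i) (tau p i) θ := by
  unfold wt sw
  have h1 : 0 < ‖p (i + 1) - p i‖ := norm_pos_iff.2 (sub_ne_zero.2 (side_ne hB hp i))
  have h2 : rate p i θ < 0 ↔ Real.sin (θ - tau p i) < 0 := by
    rw [rate_eq]
    constructor
    · intro h
      by_contra hn
      push Not at hn
      have := mul_nonneg h1.le hn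
      linarith
    · intro h
      exact mul_neg_of_pos_of_neg h1 h
  simp only [h2]

/-- The angle between two sides of an irrational polygon. -/
theorem irr_tau (hTau : S_Tau) {p : Fin (n + 3) → ℂ} (hp : IsConvexPolygon p) {i : Fin (n + 3)}
    (hi : Irrational (ang p i / π)) : Irrational ((tau p i - tau p (i - 1)) / π) := by
  obtain ⟨k, hk⟩ := hTau n p hp i
  rw [hk]
  have : (π - ang p i + 2 * k * π) / π = ((1 + 2 * k : ℤ) : ℝ) - ang p i / π := by
    have := Real.pi_ne_zero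
    field_simp
    push_cast
    ring
  rw [this]
  exact hi.intCast_sub _

/-! ### The function of the direction -/

/-- all directions -/
theorem ae_all_dir {p : Fin (n + 3) → ℂ} {F : ℂ × ℝ → ℂ} {g : ℝ → ℂ}
    (hF : ∀ z θ, F (z, θ + 2 * π) = F (z, θ)) (hg : ∀ θ, g (θ + 2 * π) = g θ)
    (h : ∀ᵐ x : ℂ × ℝ, x ∈ phase p → F x = g x.2) :
    ∀ᵐ x : ℂ × ℝ, x.1 ∈ region p → F x = g x.2 := by
  have hFz : ∀ (k : ℤ) z θ, F (z, θ + k • (2 * π)) = F (z, θ) := by
    intro k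
    induction k using Int.induction_on with
    | zero => intro z θ; simp
    | succ k ih =>
      intro z θ
      rw [add_zsmul, one_zsmul, ← add_assoc, hF, ih]
    | pred k ih =>
      intro z θ
      rw [← hF, sub_zsmul, one_zsmul]
      have : θ + ((-(k:ℤ)) • (2 * π) + -(2 * π)) + 2 * π = θ + (-(k:ℤ)) • (2 * π) := by ring
      rw [this, ih]
  have hgz : ∀ (k : ℤ) θ, g (θ + k • (2 * π)) = g θ := by
    intro k
    induction k using Int.induction_on with
    | zero => intro θ; simp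
    | succ k ih =>
      intro θ
      rw [add_zsmul, one_zsmul, ← add_assoc, hg, ih]
    | pred k ih =>
      intro θ
      rw [← hg, sub_zsmul, one_zsmul]
      have : θ + ((-(k:ℤ)) • (2 * π) + -(2 * π)) + 2 * π = θ + (-(k:ℤ)) • (2 * π) := by ring
      rw [this, ih]
  have h1 : ∀ᵐ x : ℂ × ℝ, ∀ k : ℤ, (x.1, x.2 + k • (2 * π)) ∈ phase p →
      F (x.1, x.2 + k • (2 * π)) = g (x.2 + k • (2 * π)) := by
    rw [ae_all_iff]
    intro k
    exact (shift (k • (2 * π))).quasiMeasurePreserving.ae h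
  filter_upwards [h1] with x hx hxr
  obtain ⟨k, hk, -⟩ := existsUnique_add_zsmul_mem_Ico Real.two_pi_pos x.2 0
  rw [zero_add] at hk
  have h2 := hx k ⟨hxr, hk⟩
  rw [hFz, hgz] at h2
  exact h2

theorem var_g (hB : S_Basic) (hH : S_Hull) {p : Fin (n + 3) → ℂ} (hp : IsConvexPolygon p)
    {f : ℂ × ℝ → ℂ} {g : ℝ → ℂ} (hg : Measurable g) (hgb : ∀ θ, ‖g θ‖ ≤ 1)
    (h : ∀ᵐ x : ℂ × ℝ, x.1 ∈ region p → f x = g x.2) {C : ℝ}
    (hC : ∀ h : ℝ, 0 < h → h < 1 →
      ∫⁻ x in phase p, ENNReal.ofReal (DD f h x) ≤ ENNReal.ofReal (C * h)) :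
    ∃ C' : ℝ, ∀ ε : ℝ, 0 < ε → ε < 1 →
      ∫ x in (0 : ℝ)..(2 * π), ‖g (x + ε) - g x‖ ≤ C' * ε := by
  have hrr : region p = reg p := (hH n p hp).2
  obtain ⟨_, hop, _, _, _, hne, _⟩ := hB n p hp
  rw [← hrr] at hop hne
  have hregm : MeasurableSet (region p) := hop.measurableSet
  have hph : MeasurableSet (phase p) := hregm.prod measurableSet_Ico
  have hfin : volume (region p) < ⊤ :=
    ((isBounded_convexHull.2 (finite_range p).isBounded).subset interior_subset).measure_lt_top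
  have hpos : 0 < volume (region p) := hop.measure_pos volume hne
  obtain ⟨V, hV⟩ : ∃ V : ℝ, V = (volume (region p)).toReal := ⟨_, rfl⟩
  have hV0 : 0 < V := by rw [hV]; exact ENNReal.toReal_pos hpos.ne' hfin.ne
  refine ⟨max C 0 / V, fun ε hε hε1 => ?_⟩
  have hF : Measurable (fun θ : ℝ => ‖g (θ + ε) - g θ‖) :=
    ((hg.comp (measurable_id.add_const ε)).sub hg).norm
  -- the double integral
  have h1 : ∫⁻ x in phase p, ENNReal.ofReal (DD f ε x) =
      ∫⁻ x in phase p, ENNReal.ofReal ‖g (x.2 + ε) - g x.2‖ := by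
    refine lintegral_congr_ae ?_
    have h2 := (shift ε).quasiMeasurePreserving.ae h
    filter_upwards [ae_restrict_mem hph, ae_restrict_of_ae h, ae_restrict_of_ae h2] with x a1 a2 a3
    have b1 := a2 a1.1
    have b2 := a3 a1.1
    unfold DD
    rw [b1, b2]
  have h3 : ∫⁻ x in phase p, ENNReal.ofReal ‖g (x.2 + ε) - g x.2‖ =
      volume (region p) * ∫⁻ θ in Ico 0 (2 * π), ENNReal.ofReal ‖g (θ + ε) - g θ‖ := by
    rw [phase, Measure.volume_eq_prod, ← Measure.prod_restrict]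
    have hFs : Measurable (fun x : ℂ × ℝ => ENNReal.ofReal ‖g (x.2 + ε) - g x.2‖) :=
      hF.ennreal_ofReal.comp measurable_snd
    rw [lintegral_prod _ hFs.aemeasurable]
    simp only
    rw [lintegral_const, Measure.restrict_apply_univ, mul_comm]
  have h4 := hC ε hε hε1
  rw [h1, h3] at h4
  have hint : IntegrableOn (fun θ : ℝ => ‖g (θ + ε) - g θ‖) (Ico 0 (2 * π)) := by
    refine Measure.integrableOn_of_bounded (M := 2) ?_ hF.aestronglyMeasurable
      (Eventually.of_forall fun x => ?_)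
    · rw [Real.volume_Ico]
      exact ENNReal.ofReal_ne_top
    · rw [Real.norm_eq_abs, abs_of_nonneg (norm_nonneg _)]
      refine (norm_sub_le _ _).trans ?_
      linarith [hgb (x + ε), hgb x]
  rw [← ofReal_integral_eq_lintegral_ofReal hint (Eventually.of_forall fun x => norm_nonneg _)] at h4
  have h5 : volume (region p) = ENNReal.ofReal V := by
    rw [hV, ENNReal.ofReal_toReal hfin.ne]
  rw [h5, ← ENNReal.ofReal_mul hV0.le] at h4
  have h6 : V * ∫ θ in Ico 0 (2 * π), ‖g (θ + ε) - g θ‖ ≤ max C 0 * ε := by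
    have h7 := h4.trans (ENNReal.ofReal_le_ofReal
      (mul_le_mul_of_nonneg_right (le_max_left C 0) hε.le))
    rwa [ENNReal.ofReal_le_ofReal_iff (by positivity)] at h7
  rw [intervalIntegral.integral_of_le (by positivity), ← integral_Ico_eq_integral_Ioc]
  rw [div_mul_eq_mul_div, le_div_iff₀ hV0, mul_comm]
  exact h6

/-- The theorem. -/
theorem final {n : ℕ} {p : Fin (n + 3) → ℂ} (hp : IsConvexPolygon p) (ω : ℝ)
    (χ : Fin (n + 3) → ℂ) (hχ : ∀ i, ‖χ i‖ = 1) (f : ℂ × ℝ → ℂ) (hf : Measurable f)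
    (hE : IsEigenfunction p ω χ f) (hV : FiniteVariation p f) :
    (ω ≠ 0 → ∀ᵐ x : ℂ × ℝ, x ∈ phase p → f x = 0) ∧
    (ω = 0 → ∃ g : ℝ → ℂ, Measurable g ∧ ∀ᵐ x : ℂ × ℝ, x ∈ phase p → f x = g x.2) ∧
    ((∃ i, Irrational (ang p i / π)) →
      ∃ c : ℂ, (∀ᵐ x : ℂ × ℝ, x ∈ phase p → f x = c) ∧ (c ≠ 0 → ω = 0 ∧ ∀ i, χ i = 1)) := by
  have hB : S_Basic := Pool.Agent.W174.PG.basic
  have hH : S_Hull := Pool.Agent.W975.PG.hull hB
  have hR : S_Ref := Pool.Agent.W347.BB.ref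
  have hM : S_Mp := Pool.Agent.W333.BB.mp
  have hO : S_Open := Pool.Agent.W762.BB.open_it
  have hU : S_Uniq := Pool.Agent.W108.BB.uniq
  have hVr : S_Rev := W973.BB.rev hR
  have hUnif : S_Unif := Pool.Agent.W12.BB.Unif.unif W327.BB.alt (Pool.Agent.W340.BB.Trip.trip hR hB)
  have hFan : S_Fan := Pool.Agent.W12.BB.Fan.fan hR
  have hEx : S_Exist := Pool.Agent.W345.BB.exist hR Pool.Agent.W337.BB.exit_th hUnif
  have hG : S_Gen := Pool.Agent.W337.BB.gen_th
  have hFl : S_Flow := Pool.Agent.W462.BBF.flow hR hM hO hU hVr hH hB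
  have hBad : S_Bad := Pool.Agent.W74.BB.bad
  have hRot : S_Rot := Pool.Agent.W363.BB.rot
  have hTau : S_Tau := Pool.Agent.W337.BB.tau_th
  -- the compressed function
  obtain ⟨f', hf'⟩ : ∃ f' : ℂ × ℝ → ℂ, f' = fun x => cp (f x) := ⟨_, rfl⟩
  have hfm : Measurable f' := by rw [hf']; exact meas_cp.comp hf
  have hfb : ∀ x, ‖f' x‖ ≤ 1 := by rw [hf']; exact fun x => cp_le _
  have hfE : IsEigenfunction p ω χ f' := by rw [hf']; exact eigen_cp hχ hE
  obtain ⟨C0, hC0⟩ := hV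
  obtain ⟨C, hCd⟩ : ∃ C : ℝ, C = 2 * max C0 0 := ⟨_, rfl⟩
  have hCn : 0 ≤ C := by rw [hCd]; have := le_max_right C0 0; linarith
  have hC : ∀ h : ℝ, 0 < h → h < 1 →
      ∫⁻ x in phase p, ENNReal.ofReal (DD f' h x) ≤ ENNReal.ofReal (C * h) := by
    intro h h0 h1
    calc ∫⁻ x in phase p, ENNReal.ofReal (DD f' h x)
        ≤ ∫⁻ x in phase p, ENNReal.ofReal 2 * ENNReal.ofReal ‖f (x.1, x.2 + h) - f x‖ := by
          refine lintegral_mono fun x => ?_
          rw [← ENNReal.ofReal_mul (by norm_num)]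
          apply ENNReal.ofReal_le_ofReal
          unfold DD
          rw [hf']
          exact cp_lip _ _
      _ = ENNReal.ofReal 2 * ∫⁻ x in phase p, ENNReal.ofReal ‖f (x.1, x.2 + h) - f x‖ :=
          lintegral_const_mul' _ _ ENNReal.ofReal_ne_top
      _ ≤ ENNReal.ofReal 2 * ENNReal.ofReal (C0 * h) := by
          gcongr
          exact hC0 h h0 h1
      _ = ENNReal.ofReal (2 * (C0 * h)) := (ENNReal.ofReal_mul (by norm_num)).symm
      _ ≤ ENNReal.ofReal (C * h) := by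
          apply ENNReal.ofReal_le_ofReal
          rw [hCd]
          have := mul_le_mul_of_nonneg_right (le_max_left C0 0) h0.le
          linarith
  have hMain : ∀ T η : ℝ, 0 < T → 0 < η → ∀ᶠ h in 𝓝[>] (0 : ℝ),
      ∫⁻ x in GG p η, ENNReal.ofReal (TT f' (T * Real.sin h) x) ≤
        ENNReal.ofReal ((6 * C + 3) * h) := fun T η hT hη =>
    main_f hH hB hR hO hU hM hFan hEx hG hFl hBad hp hχ hfm hfb hfE C hCn hC T η hT hη
  have hnull : ∀ η δ : ℝ, 0 < δ → δ < η →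
      ∫⁻ x in GG p (2 * η), ENNReal.ofReal (TT f' δ x) = 0 := fun η δ h1 h2 =>
    lim_f hfm (by positivity) hMain η δ h1 h2
  obtain ⟨g, hgm, hgp, hgb, hg⟩ := dir_f hB hH hp hfm hfb hfE hnull
  have hgood := ae_good hH hp hfE hgp hg
  have hrefl := fun i => refl_f hB hH hp hχ hfE hgood i
  have hsnd : ∀ {P : ℝ → Prop}, (∀ᵐ θ : ℝ, P θ) → ∀ᵐ x : ℂ × ℝ, P x.2 := fun h =>
    (Measure.quasiMeasurePreserving_snd (μ := (volume : Measure ℂ))
      (ν := (volume : Measure ℝ))).ae h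
  have part1 : ω ≠ 0 → ∀ᵐ x : ℂ × ℝ, x ∈ phase p → f x = 0 := by
    intro hω
    have h0 := hsnd (zero_g hB hp hω hχ hrefl)
    filter_upwards [hg, h0] with x h1 h2 hx
    have h3 := h1 hx
    rw [h2] at h3
    have h4 : f' x = 0 := by rw [eq_FF f' ω x, h3, mul_zero]
    rw [hf'] at h4
    exact cp_eq_zero h4
  have hdir0 : dir 0 = 1 := by unfold dir; simp
  have hg0 : ω = 0 → ∀ᵐ x : ℂ × ℝ, x ∈ phase p → f' x = g x.2 := by
    intro hω
    filter_upwards [hg] with x h1 hx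
    have h2 := h1 hx
    rw [← h2]
    unfold FF
    rw [hω, zero_mul, neg_zero, hdir0, one_mul]
  have hci : ∀ x, f x = ci (f' x) := fun x => by rw [hf']; exact (ci_cp _).symm
  refine ⟨part1, ?_, ?_⟩
  · intro hω
    refine ⟨fun θ => ci (g θ), meas_ci.comp hgm, ?_⟩
    filter_upwards [hg0 hω] with x h1 hx
    rw [hci, h1 hx]
  · rintro ⟨i, hi⟩
    by_cases hω : ω = 0
    swap
    · exact ⟨0, part1 hω, fun h => absurd rfl h⟩
    have hir := irr_tau hTau hp hi
    have hr : ∀ i, ∀ᵐ θ : ℝ, g (2 * tau p i - θ) = sw (χ i) (tau p i) θ * g θ := by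
      intro i
      filter_upwards [hrefl i] with θ h1
      rw [h1, wt_sw hB hp, hω, zero_mul, hdir0, mul_one]
    -- the absolute value is constant
    have hrn : ∀ i, ∀ᵐ θ : ℝ, ((‖g (2 * tau p i - θ)‖ : ℝ) : ℂ) = ((‖g θ‖ : ℝ) : ℂ) := by
      intro i
      filter_upwards [hr i] with θ h1
      rw [h1, norm_mul, norm_sw (hχ i), one_mul]
    obtain ⟨c0, hc0⟩ := rot_const hRot (h := fun θ => ((‖g θ‖ : ℝ) : ℂ))
      (measurable_ofReal.comp hgm.norm) (fun θ => by simp only [hgp]) (hrn i) (hrn (i - 1)) hir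
    have hex : ∃ c : ℝ, ∀ᵐ θ : ℝ, ‖g θ‖ = c := by
      refine ⟨c0.re, ?_⟩
      filter_upwards [hc0] with θ h1
      rw [← h1, ofReal_re]
    obtain ⟨c, hc⟩ := hex
    have hc00 : 0 ≤ c := by
      obtain ⟨θ, hθ⟩ := hc.exists
      rw [← hθ]
      exact norm_nonneg _
    rcases hc00.eq_or_lt with hc1 | hc1
    · -- the function vanishes
      refine ⟨0, ?_, fun h => absurd rfl h⟩
      filter_upwards [hg0 hω, hsnd hc] with x h1 h2 hx
      have h3 := h1 hx
      rw [← hc1, norm_eq_zero] at h2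
      rw [h2] at h3
      rw [hf'] at h3
      exact cp_eq_zero h3
    · -- the weights are trivial
      have hFp : ∀ z θ, f' (z, θ + 2 * π) = f' (z, θ) := hfE.periodic
      obtain ⟨C', hC'⟩ := var_g hB hH hp hgm hgb (ae_all_dir hFp hgp (hg0 hω)) hC
      have w1 : χ i = 1 := weight_one hgm hgb hgp hC' hc1 hc (hχ i) (hχ (i - 1)) hir (hr i)
        (hr (i - 1))
      have hir' : Irrational ((tau p (i - 1) - tau p i) / π) := by
        have : (tau p (i - 1) - tau p i) / π = -((tau p i - tau p (i - 1)) / π) := by ring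
        rw [this]
        exact hir.neg
      have w2 : χ (i - 1) = 1 := weight_one hgm hgb hgp hC' hc1 hc (hχ (i - 1)) (hχ i) hir'
        (hr (i - 1)) (hr i)
      have hr1 : ∀ j, χ j = 1 → ∀ᵐ θ : ℝ, g (2 * tau p j - θ) = g θ := by
        intro j hj
        filter_upwards [hr j] with θ h1
        rw [h1, hj]
        unfold sw
        simp
      obtain ⟨c', hc'⟩ := rot_const hRot hgm hgp (hr1 i w1) (hr1 (i - 1) w2) hir
      have hc'0 : c' ≠ 0 := by
        obtain ⟨θ, h1, h2⟩ := (hc.and hc').exists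
        rw [h2] at h1
        intro h
        rw [h, norm_zero] at h1
        exact hc1.ne h1
      refine ⟨ci c', ?_, fun _ => ⟨hω, fun k => ?_⟩⟩
      · filter_upwards [hg0 hω, hsnd hc'] with x h1 h2 hx
        rw [hci, h1 hx, h2]
      · have q := (Measure.measurePreserving_sub_left (volume : Measure ℝ)
          (2 * tau p k)).quasiMeasurePreserving.ae hc'
        obtain ⟨θ, h1, h2, h3⟩ := ((hr k).and (q.and hc')).exists
        rw [h2, h3] at h1
        have h4 : sw (χ k) (tau p k) θ = 1 := by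
          have : sw (χ k) (tau p k) θ * c' = 1 * c' := by rw [← h1, one_mul]
          exact mul_right_cancel₀ hc'0 this
        unfold sw at h4
        split_ifs at h4
        · exact h4
        · exact inv_eq_one.1 h4

end Pool.Agent.TH578.BE
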