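import Pool.Agent.W780.BB.Main

set_option autoImplicit false

/-!
The time `s` map does not increase integrals.
-/

namespace Pool.Agent.TH578.BE

open Complex Set MeasureTheory Filter Topology Pool.Agent.W780.PG Pool.Agent.W780.BB

open scoped Real ComplexConjugate

variable {n : ℕ}

/-- the states with itinerary `w` up to the time `s` -/
def CS (p : Fin (n + 3) → ℂ) (s : ℝ) (w : List (Fin (n + 3))) : Set (ℂ × ℝ) :=
  {x | Ch p w x.1 (x.1 + s • dir x.2)}

/-- `q` after the time `s` -/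
noncomputable def QQ (p : Fin (n + 3) → ℂ) (s : ℝ) (q : ℂ × ℝ → ℝ)
    (W : Finset (List (Fin (n + 3)))) (x : ℂ × ℝ) : ℝ :=
  ∑ w ∈ W, (CS p s w).indicator (fun x => q (fd p w (x.1 + s • dir x.2, x.2))) x

theorem open_CS (hO : S_Open) {p : Fin (n + 3) → ℂ} (hp : IsConvexPolygon p) (s : ℝ)
    (w : List (Fin (n + 3))) : IsOpen (CS p s w) := by
  have h1 : CS p s w = (fun x : ℂ × ℝ => ((x.1, x.1 + s • dir x.2) : ℂ × ℂ)) ⁻¹'
      {x : ℂ × ℂ | Ch p w x.1 x.2} := rfl
  rw [h1]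
  refine (hO n p hp w).preimage ?_
  exact continuous_fst.prodMk
    (continuous_fst.add ((continuous_dir.comp continuous_snd).const_smul s))

theorem meas_QQ (hO : S_Open) (hM : S_Mp) {p : Fin (n + 3) → ℂ} (hp : IsConvexPolygon p) (s : ℝ)
    {q : ℂ × ℝ → ℝ} (hq : Measurable q) (W : Finset (List (Fin (n + 3)))) :
    Measurable (QQ p s q W) := by
  unfold QQ
  refine Finset.measurable_fun_sum _ fun w _ => ?_
  refine Measurable.indicator ?_ (open_CS hO hp s w).measurableSet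
  refine hq.comp ((hM n p hp w).1.measurable.comp ?_)
  have : Continuous (fun x : ℂ × ℝ => ((x.1 + s • dir x.2, x.2) : ℂ × ℝ)) :=
    (continuous_fst.add ((continuous_dir.comp continuous_snd).const_smul s)).prodMk continuous_snd
  exact this.measurable

theorem QQ_nonneg {p : Fin (n + 3) → ℂ} (s : ℝ) {q : ℂ × ℝ → ℝ} (hq : ∀ x, 0 ≤ q x)
    (W : Finset (List (Fin (n + 3)))) (x : ℂ × ℝ) : 0 ≤ QQ p s q W x := by
  unfold QQ
  exact Finset.sum_nonneg fun w _ => indicator_nonneg (fun _ _ => hq _) _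

theorem le_QQ {p : Fin (n + 3) → ℂ} (s : ℝ) {q : ℂ × ℝ → ℝ} (hq : ∀ x, 0 ≤ q x)
    (W : Finset (List (Fin (n + 3)))) {w : List (Fin (n + 3))} (hw : w ∈ W) {x : ℂ × ℝ}
    (hx : Ch p w x.1 (x.1 + s • dir x.2)) :
    q (fd p w (x.1 + s • dir x.2, x.2)) ≤ QQ p s q W x := by
  unfold QQ
  have h1 := Finset.single_le_sum (f := fun w => (CS p s w).indicator
    (fun x => q (fd p w (x.1 + s • dir x.2, x.2))) x)
    (fun w _ => indicator_nonneg (fun _ _ => hq _) _) hw
  have h2 : (CS p s w).indicator (fun x => q (fd p w (x.1 + s • dir x.2, x.2))) x =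
      q (fd p w (x.1 + s • dir x.2, x.2)) := indicator_of_mem (show x ∈ CS p s w from hx) _
  rw [h2] at h1
  exact h1

theorem exists_of_QQ (hU : S_Uniq) {p : Fin (n + 3) → ℂ} (hp : IsConvexPolygon p) (s : ℝ)
    {q : ℂ × ℝ → ℝ} (W : Finset (List (Fin (n + 3)))) {x : ℂ × ℝ} {t : ℝ} (ht : 0 ≤ t)
    (hx : t < QQ p s q W x) : ∃ w ∈ W, Ch p w x.1 (x.1 + s • dir x.2) ∧
      t < q (fd p w (x.1 + s • dir x.2, x.2)) := by
  by_cases hex : ∃ w ∈ W, Ch p w x.1 (x.1 + s • dir x.2)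
  · obtain ⟨w, hw, hwx⟩ := hex
    refine ⟨w, hw, hwx, ?_⟩
    have h1 : QQ p s q W x = (CS p s w).indicator
        (fun x => q (fd p w (x.1 + s • dir x.2, x.2))) x := by
      unfold QQ
      refine Finset.sum_eq_single w ?_ (fun h => absurd hw h)
      intro w' _ hne
      refine indicator_of_notMem ?_ _
      intro h
      exact hne (hU n p hp _ _ _ _ h hwx)
    rw [h1, indicator_of_mem (show x ∈ CS p s w from hwx)] at hx
    exact hx
  · exfalso
    push Not at hex
    have h1 : QQ p s q W x = 0 := by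
      unfold QQ
      refine Finset.sum_eq_zero fun w hw => ?_
      exact indicator_of_notMem (s := CS p s w) (hex w hw) _
    rw [h1] at hx
    linarith

theorem flow_f (hFlow : S_Flow) (hO : S_Open) (hU : S_Uniq) (hM : S_Mp) {p : Fin (n + 3) → ℂ}
    (hp : IsConvexPolygon p) (s : ℝ) {q : ℂ × ℝ → ℝ}
    (hq : Measurable q) (hq0 : ∀ x, 0 ≤ q x) (hper : ∀ z θ, q (z, θ + 2 * π) = q (z, θ))
    (W : Finset (List (Fin (n + 3)))) :
    ∫⁻ x in phase p, ENNReal.ofReal (QQ p s q W x) ≤ ∫⁻ x in phase p, ENNReal.ofReal (q x) := by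
  rw [lintegral_eq_lintegral_meas_lt _ (Eventually.of_forall (QQ_nonneg s hq0 W))
    (meas_QQ hO hM hp s hq W).aemeasurable,
    lintegral_eq_lintegral_meas_lt _ (Eventually.of_forall hq0) hq.aemeasurable]
  refine setLIntegral_mono' measurableSet_Ioi fun t ht => ?_
  have ht0 : (0 : ℝ) < t := ht
  have m1 : MeasurableSet {x : ℂ × ℝ | t < QQ p s q W x} :=
    measurableSet_lt measurable_const (meas_QQ hO hM hp s hq W)
  have m2 : MeasurableSet {x : ℂ × ℝ | t < q x} := measurableSet_lt measurable_const hq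
  rw [Measure.restrict_apply m1, Measure.restrict_apply m2]
  refine le_trans (measure_mono ?_) ((hFlow n p hp s {x : ℂ × ℝ | t < q x} m2 ?_ W).trans ?_)
  · rintro x ⟨hx1, hx2⟩
    exact ⟨hx2, exists_of_QQ hU hp s W ht0.le hx1⟩
  · intro z θ
    simp only [mem_ofPred_eq, hper]
  · rw [inter_comm]

end Pool.Agent.TH578.BE
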