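import Pool.Agent.TH578.BE.Defs
import Pool.Agent.W82.BB.Inv
import Pool.Agent.W780.BB.Main

set_option autoImplicit false

/-!
Eigenfunctions along itineraries.
-/

namespace Pool.Agent.TH578.BE

open Complex Set MeasureTheory Filter Topology Pool.Agent.W780.PG Pool.Agent.W780.BB
open Pool.Agent.W174.PG Pool.Agent.W82.BB

open scoped Real ComplexConjugate

variable {n : ℕ}

/-- the factor of an itinerary -/
noncomputable def XX (χ : Fin (n + 3) → ℂ) (s : ℝ) : List (Fin (n + 3)) → ℂ
  | [] => 1
  | i :: w => (if 0 < s then χ i else (χ i)⁻¹) * XX χ s w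

theorem norm_XX {χ : Fin (n + 3) → ℂ} (hχ : ∀ i, ‖χ i‖ = 1) (s : ℝ) (w : List (Fin (n + 3))) :
    ‖XX χ s w‖ = 1 := by
  induction w with
  | nil => simp [XX]
  | cons i w ih =>
    simp only [XX, norm_mul, ih, mul_one]
    split_ifs
    · exact hχ i
    · rw [norm_inv, hχ i, inv_one]

theorem XX_sign (χ : Fin (n + 3) → ℂ) {s s' : ℝ} (h : 0 < s ↔ 0 < s') (w : List (Fin (n + 3))) :
    XX χ s w = XX χ s' w := by
  induction w with
  | nil => rfl
  | cons i w ih => simp only [XX, ih, h]

theorem dir_def (x : ℝ) : exp ((x : ℂ) * I) = dir x := rfl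

theorem dir_neg_mul (x : ℝ) : dir (-x) * dir x = 1 := by
  rw [← dir_add, neg_add_cancel]
  unfold dir
  simp

/-- the general statement -/
theorem inv_gen (hR : S_Ref) {p : Fin (n + 3) → ℂ} (hp : IsConvexPolygon p)
    (hreg : region p = reg p) {ω : ℝ} {χ : Fin (n + 3) → ℂ} (hχ : ∀ i, ‖χ i‖ = 1)
    {f : ℂ × ℝ → ℂ} (hS : IsEigenfunction p ω χ f) :
    ∀ (w : List (Fin (n + 3))) (y : ℂ) (θ s r : ℝ), y + (r * s) • dir θ ∈ reg p →
      Ch p w y (y + s • dir θ) →
      f (fd p w (y + s • dir θ, θ)) =
        XX χ s w * dir (ω * (s - r * s)) * f (y + (r * s) • dir θ, θ) := by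
  obtain ⟨-, -, hR3, hR4, hR5, -⟩ := hR n p hp
  intro w
  induction w with
  | nil =>
    intro y θ s r hz hA
    have h1 := hS.free (y + (r * s) • dir θ) θ (s - r * s) (by rw [hreg]; exact hz)
    have e : y + (r * s) • dir θ + (s - r * s) • dir θ = y + s • dir θ := by
      rw [add_assoc, ← add_smul]; congr 2; ring
    rw [e, hreg] at h1
    rw [XX, one_mul]
    exact h1 hA
  | cons i w ih =>
    intro y θ s r hz hCh
    obtain ⟨hy, hA, hc, hCh'⟩ := hCh
    obtain ⟨A, hAdef⟩ : ∃ A : ℂ, A = y + s • dir θ := ⟨_, rfl⟩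
    obtain ⟨t, ht⟩ : ∃ t : ℝ, t = sf p i y / (sf p i y - sf p i A) := ⟨_, rfl⟩
    rw [← hAdef] at hA hc hCh'
    have hAy : A - y = s • dir θ := by rw [hAdef]; ring
    have hden : 0 < sf p i y - sf p i A := by linarith
    have ht0 : 0 < t := by rw [ht]; exact div_pos hy hden
    have ht1 : t < 1 := by rw [ht, div_lt_one hden]; linarith
    have hcr : cr p i y A = y + (t * s) • dir θ := by
      unfold cr
      rw [← ht, hAy, smul_smul]
    have hc0 : sf p i (cr p i y A) = 0 := by
      have h1 : cr p i y A = y + t • (A - y) := by unfold cr; rw [← ht]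
      rw [h1, sf_line, ht]
      field_simp
      ring
    obtain ⟨c, hcdef⟩ : ∃ c : ℂ, c = cr p i y A := ⟨_, rfl⟩
    rw [← hcdef] at hc hc0 hCh' hcr
    have hside : c ∈ side p i := mem_side hp hc0 hc
    have hr : r < t := by
      have h1 := hz i
      have h2 : y + (r * s) • dir θ = y + r • (A - y) := by rw [hAy, smul_smul]
      rw [h2] at h1
      have h3 := sf_line p i y A r
      unfold sf at h3
      rw [h3] at h1
      have h4 : (1 - r) * sf p i y + r * sf p i A > 0 := h1
      rw [ht, lt_div_iff₀ hden]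
      linarith
    -- the next piece
    have hrfc : rf p i c = c := hR4 i c hc0
    have hA2 : A = c + ((1 - t) * s) • dir θ := by
      rw [hcr, hAdef, add_assoc, ← add_smul]
      congr 2
      ring
    have hrfA : rf p i A = c + ((1 - t) * s) • dir (2 * tau p i - θ) := by
      conv_lhs => rw [hA2]
      rw [hR5, hrfc]
    have hsfA : 0 < sf p i (rf p i A) := by rw [hR3]; linarith
    obtain ⟨u, hu0, hu1, hu⟩ := small_step hc0 hc hsfA
    have hu' : c + (u * ((1 - t) * s)) • dir (2 * tau p i - θ) ∈ reg p := by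
      have e : c + u • (rf p i A - c) = c + (u * ((1 - t) * s)) • dir (2 * tau p i - θ) := by
        rw [hrfA, add_sub_cancel_left, smul_smul]
      rwa [e] at hu
    have hIH := ih c (2 * tau p i - θ) ((1 - t) * s) u hu' (by rw [← hrfA]; exact hCh')
    have hfd : fd p (i :: w) (A, θ) = fd p w (c + ((1 - t) * s) • dir (2 * tau p i - θ), 2 * tau p i - θ) := by
      rw [← hrfA]
      rfl
    rw [← hAdef, hfd, hIH]
    have hz' : y + (r * s) • dir θ = c - ((t - r) * s) • dir θ := by
      rw [hcr]
      have : (r * s) = t * s - (t - r) * s := by ring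
      rw [this, sub_smul]
      ring
    have htr : 0 < t - r := by linarith
    have h1t : 0 < 1 - t := by linarith
    rcases lt_trichotomy s 0 with hs | hs | hs
    · -- backward motion
      have h1 := hS.reflect i c hside (2 * tau p i - θ) (-(u * ((1 - t) * s))) (-((t - r) * s))
        (by nlinarith [mul_pos hu0 h1t, mul_neg_of_pos_of_neg (mul_pos hu0 h1t) hs]) (by nlinarith)
      have e1 : 2 * tau p i - (2 * tau p i - θ) = θ := by ring
      have e2 : c - (-(u * ((1 - t) * s))) • dir (2 * tau p i - θ) =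
          c + (u * ((1 - t) * s)) • dir (2 * tau p i - θ) := by
        rw [neg_smul, sub_neg_eq_add]
      have e3 : c + (-((t - r) * s)) • dir θ = c - ((t - r) * s) • dir θ := by
        rw [neg_smul]; ring
      rw [e1, e2, e3, hreg, ← hz', dir_def] at h1
      have h2 := h1 hu' hz
      have hχ0 : χ i ≠ 0 := fun h => by
        have := hχ i
        rw [h, norm_zero] at this
        exact zero_ne_one this
      have hX1 : XX χ s (i :: w) = (χ i)⁻¹ * XX χ s w := by
        simp only [XX, if_neg hs.not_gt]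
      have hX2 : XX χ ((1 - t) * s) w = XX χ s w := by
        apply XX_sign
        constructor
        · intro h
          nlinarith
        · intro h
          exact absurd h hs.not_gt
      rw [h2, hX1, hX2]
      have hd : dir (ω * (s - r * s)) * dir (ω * (-(u * ((1 - t) * s)) + -((t - r) * s))) =
          dir (ω * ((1 - t) * s - u * ((1 - t) * s))) := by
        rw [← dir_add]
        congr 1
        ring
      rw [← hd]
      field_simp
    · exfalso
      rw [hs, zero_smul, add_zero] at hAdef
      rw [hAdef] at hA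
      linarith
    · have h1 := hS.reflect i c hside θ ((t - r) * s) (u * ((1 - t) * s))
        (mul_pos htr hs) (mul_pos hu0 (mul_pos h1t hs))
      rw [hreg, ← hz', dir_def] at h1
      have h2 := h1 hz hu'
      have hX1 : XX χ s (i :: w) = χ i * XX χ s w := by
        simp only [XX, if_pos hs]
      have hX2 : XX χ ((1 - t) * s) w = XX χ s w := by
        apply XX_sign
        exact ⟨fun _ => hs, fun _ => mul_pos h1t hs⟩
      rw [h2, hX1, hX2]
      have hd : dir (ω * ((1 - t) * s - u * ((1 - t) * s))) *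
          dir (ω * ((t - r) * s + u * ((1 - t) * s))) = dir (ω * (s - r * s)) := by
        rw [← dir_add]
        congr 1
        ring
      rw [← hd]
      ring

/-- Eigenfunctions along itineraries: the factor depends only on the itinerary and the time. -/
theorem inv_f (hR : S_Ref) {p : Fin (n + 3) → ℂ} (hp : IsConvexPolygon p)
    (hreg : region p = reg p) {ω : ℝ} {χ : Fin (n + 3) → ℂ} (hχ : ∀ i, ‖χ i‖ = 1)
    {f : ℂ × ℝ → ℂ} (hS : IsEigenfunction p ω χ f) (w : List (Fin (n + 3))) (s : ℝ) :
    ∃ c : ℂ, ‖c‖ = 1 ∧ ∀ (z : ℂ) (θ : ℝ), z ∈ reg p → Ch p w z (z + s • dir θ) →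
      f (fd p w (z + s • dir θ, θ)) = c * f (z, θ) := by
  refine ⟨XX χ s w * dir (ω * s), ?_, ?_⟩
  · rw [norm_mul, norm_XX hχ, W780.BB.norm_dir, one_mul]
  · intro z θ hz hCh
    have h := inv_gen hR hp hreg hχ hS w z θ s 0 (by simpa using hz) hCh
    simpa using h

end Pool.Agent.TH578.BE
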