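import Pool.Agent.W363.BB.Rot

set_option autoImplicit false

/-!
Functions invariant under an irrational rotation are constant.
-/

namespace Pool.Agent.TH578.BE

open MeasureTheory Set Filter Pool.Agent.W363.BB

open scoped Real

theorem rot_set {Θ : Set ℝ} (hΘ : MeasurableSet Θ) (hper : ∀ θ, θ + 2 * π ∈ Θ ↔ θ ∈ Θ) {α : ℝ}
    (htr : ∀ᵐ θ : ℝ, (2 * α + θ ∈ Θ ↔ θ ∈ Θ)) (hirr : Irrational (α / π)) :
    volume Θ = 0 ∨ volume Θᶜ = 0 := by
  have : Fact ((0 : ℝ) < 2 * π) := ⟨Real.two_pi_pos⟩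
  set s : Set (AddCircle (2 * π)) :=
    {x | ((AddCircle.measurableEquivIoc (2 * π) 0 x : Ioc (0 : ℝ) (0 + 2 * π)) : ℝ) ∈ Θ} with hs
  have hsm : MeasurableSet s :=
    (measurable_subtype_coe.comp (AddCircle.measurableEquivIoc (2 * π) 0).measurable) hΘ
  have hmem : ∀ θ : ℝ, ((θ : ℝ) : AddCircle (2 * π)) ∈ s ↔ θ ∈ Θ := by
    intro θ
    have h1 : (((AddCircle.measurableEquivIoc (2 * π) 0 (θ : AddCircle (2 * π)) :
        Ioc (0 : ℝ) (0 + 2 * π)) : ℝ) : AddCircle (2 * π)) = (θ : AddCircle (2 * π)) :=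
      (AddCircle.measurableEquivIoc (2 * π) 0).symm_apply_apply (θ : AddCircle (2 * π))
    have h2 := (QuotientAddGroup.eq (s := AddSubgroup.zmultiples (2 * π))).1 h1.symm
    obtain ⟨k, hk⟩ := AddSubgroup.mem_zmultiples_iff.1 h2
    rw [zsmul_eq_mul] at hk
    have h3 : ((AddCircle.measurableEquivIoc (2 * π) 0 (θ : AddCircle (2 * π)) :
        Ioc (0 : ℝ) (0 + 2 * π)) : ℝ) = θ + k * (2 * π) := by
      rw [hk]; ring
    rw [hs, mem_ofPred_eq, h3]
    exact per_int hper k θ
  have herg : Ergodic ((((2 * α : ℝ) : AddCircle (2 * π))) + ·)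
      (volume : Measure (AddCircle (2 * π))) := by
    rw [AddCircle.ergodic_add_left, addOrderOf_eq_zero_iff,
      AddCircle.not_isOfFinAddOrder_iff_forall_rat_ne_div]
    intro q hq
    apply hirr
    refine ⟨q, ?_⟩
    rw [hq]
    field_simp
  have hinv : (((((2 * α : ℝ) : AddCircle (2 * π))) + ·) ⁻¹' s : Set (AddCircle (2 * π)))
      =ᵐ[volume] s := by
    have h0 : ∀ᵐ x : AddCircle (2 * π), (((2 * α : ℝ) : AddCircle (2 * π)) + x ∈ s ↔ x ∈ s) := by
      rw [← (AddCircle.measurePreserving_mk (2 * π) 0).map_eq, ae_map_iff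
        (AddCircle.measurePreserving_mk (2 * π) 0).measurable.aemeasurable]
      · refine ae_restrict_of_ae ?_
        filter_upwards [htr] with θ hθ
        have := hmem (2 * α + θ)
        rw [QuotientAddGroup.mk_add] at this
        rw [this, hθ, hmem θ]
      · have h5 : MeasurableSet {x : AddCircle (2 * π) |
            ((2 * α : ℝ) : AddCircle (2 * π)) + x ∈ s} := (measurable_const_add _) hsm
        exact h5.iff hsm
    filter_upwards [h0] with x hx
    exact propext hx
  rcases herg.quasiErgodic.ae_empty_or_univ₀ hsm.nullMeasurableSet hinv with h | h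
  · left
    refine null_of_periods fun t => ?_
    have h1 : volume s = 0 := by rwa [ae_eq_empty] at h
    rw [AddCircle.add_projection_respects_measure (2 * π) t hsm] at h1
    have h2 : (QuotientAddGroup.mk ⁻¹' s : Set ℝ) = Θ := by
      ext θ
      exact hmem θ
    rwa [h2] at h1
  · right
    refine null_of_periods fun t => ?_
    have h1 : volume sᶜ = 0 := by
      rwa [ae_eq_univ] at h
    rw [AddCircle.add_projection_respects_measure (2 * π) t hsm.compl] at h1
    have h2 : (QuotientAddGroup.mk ⁻¹' sᶜ : Set ℝ) = Θᶜ := by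
      ext θ
      exact not_congr (hmem θ)
    rwa [h2] at h1

theorem rot_fun {h : ℝ → ℂ} (hm : Measurable h) (hper : ∀ θ, h (θ + 2 * π) = h θ) {α : ℝ}
    (htr : ∀ᵐ θ : ℝ, h (2 * α + θ) = h θ) (hirr : Irrational (α / π)) :
    ∃ c : ℂ, ∀ᵐ θ : ℝ, h θ = c := by
  have hU : ∀ U : Set ℂ, MeasurableSet U →
      (∀ᵐ θ : ℝ, h θ ∈ U) ∨ (∀ᵐ θ : ℝ, h θ ∉ U) := by
    intro U hUm
    rcases rot_set (hm hUm) (fun θ => by simp only [mem_preimage, hper])
      (by filter_upwards [htr] with θ hθ; simp only [mem_preimage, hθ]) hirr with h1 | h1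
    · right
      exact measure_eq_zero_iff_ae_notMem.1 h1
    · left
      rw [ae_iff]
      exact h1
  obtain ⟨c, hc⟩ := Filter.exists_eventuallyEq_const_of_forall_separating
    (l := ae (volume : Measure ℝ)) (f := h) MeasurableSet hU
  exact ⟨c, hc⟩

end Pool.Agent.TH578.BE
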