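import Pool.Agent.TH578.BE.Fin
import Pool.Agent.TH578.BE.LimLog
import Pool.Agent.TH578.BE.RotT

set_option autoImplicit false

/-!
Eigenfunctions and invariant sets whose directional modulus is small compared with
`h log (1 / h)`.
-/

namespace Pool.Agent.TH578.BE

open Complex Set MeasureTheory Filter Topology Pool.Agent.W780.PG Pool.Agent.W780.BB
open Pool.Agent.W803.BBD (xc)

open scoped Real ComplexConjugate

variable {n : ℕ}

/-- The directional modulus of `f`: the integral over the phase space of the change of `f` if all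
directions are turned by the angle `h`. -/
noncomputable def modulus (p : Fin (n + 3) → ℂ) (f : ℂ × ℝ → ℂ) (h : ℝ) : ENNReal :=
  ∫⁻ x in phase p, ENNReal.ofReal ‖f (x.1, x.2 + h) - f x‖

/-- The directional modulus of `f` is bounded below by `c h log (1 / h)` for all small `h > 0`,
with some `c > 0`. -/
def Rough (p : Fin (n + 3) → ℂ) (f : ℂ × ℝ → ℂ) : Prop :=
  ∃ c : ℝ, 0 < c ∧ ∀ᶠ h in 𝓝[>] (0 : ℝ),
    ENNReal.ofReal (c * (h * Real.log (1 / h))) ≤ modulus p f h

theorem not_rough {p : Fin (n + 3) → ℂ} {f : ℂ × ℝ → ℂ} (h : ¬ Rough p f) :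
    ∀ ε : ℝ, 0 < ε → ∃ᶠ h in 𝓝[>] (0 : ℝ),
      modulus p f h ≤ ENNReal.ofReal (ε * (h * Real.log (1 / h))) := by
  intro ε hε hcon
  apply h
  refine ⟨ε, hε, ?_⟩
  filter_upwards [hcon] with t ht
  exact (not_le.1 ht).le

/-- A function of finite directional variation is not rough. -/
theorem fv_not_rough {p : Fin (n + 3) → ℂ} {f : ℂ × ℝ → ℂ} (hV : FiniteVariation p f) :
    ¬ Rough p f := by
  rintro ⟨c, hc, hev⟩
  obtain ⟨C, hC⟩ := hV
  obtain ⟨C', hC'⟩ : ∃ C' : ℝ, C' = max C 0 := ⟨_, rfl⟩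
  have h1 : Tendsto (fun h : ℝ => Real.log (1 / h)) (𝓝[>] 0) atTop := by
    have h2 : Tendsto (fun h : ℝ => 1 / h) (𝓝[>] 0) atTop := by
      simp only [one_div]
      exact tendsto_inv_nhdsGT_zero
    exact Real.tendsto_log_atTop.comp h2
  have h3 := h1.eventually (eventually_gt_atTop (C' / c))
  have h4 : ∀ᶠ h in 𝓝[>] (0 : ℝ), 0 < h ∧ h < 1 := by
    filter_upwards [Ioo_mem_nhdsGT (zero_lt_one : (0 : ℝ) < 1)] with h hh using hh
  obtain ⟨h, a1, a2, a3, a4⟩ := (hev.and (h3.and h4)).exists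
  have h5 := a1.trans (hC h a3 a4)
  have h6 : ENNReal.ofReal (C * h) ≤ ENNReal.ofReal (C' * h) := by
    apply ENNReal.ofReal_le_ofReal
    rw [hC']
    exact mul_le_mul_of_nonneg_right (le_max_left _ _) a3.le
  have h7 : 0 ≤ C' * h := by
    rw [hC']
    exact mul_nonneg (le_max_right _ _) a3.le
  have h8 := h5.trans h6
  rw [ENNReal.ofReal_le_ofReal_iff h7] at h8
  rw [div_lt_iff₀ hc] at a2
  have h9 : C' * h < c * (h * Real.log (1 / h)) := by
    calc C' * h < (Real.log (1 / h) * c) * h := by gcongr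
      _ = c * (h * Real.log (1 / h)) := by ring
  linarith

theorem final_log {n : ℕ} {p : Fin (n + 3) → ℂ} (hp : IsConvexPolygon p) (ω : ℝ)
    (χ : Fin (n + 3) → ℂ) (hχ : ∀ i, ‖χ i‖ = 1) (f : ℂ × ℝ → ℂ) (hf : Measurable f)
    (hE : IsEigenfunction p ω χ f) (hV : ¬ Rough p f) :
    (ω ≠ 0 → ∀ᵐ x : ℂ × ℝ, x ∈ phase p → f x = 0) ∧
    (ω = 0 → ∃ g : ℝ → ℂ, Measurable g ∧ ∀ᵐ x : ℂ × ℝ, x ∈ phase p → f x = g x.2) ∧
    ((∃ i, Irrational (ang p i / π)) → (∀ i, χ i = 1 ∨ χ i = -1) →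
      ∃ c : ℂ, (∀ᵐ x : ℂ × ℝ, x ∈ phase p → f x = c) ∧ (c ≠ 0 → ω = 0 ∧ ∀ i, χ i = 1)) := by
  have hB : S_Basic := Pool.Agent.W174.PG.basic
  have hH : S_Hull := Pool.Agent.W975.PG.hull hB
  have hR : S_Ref := Pool.Agent.W347.BB.ref
  have hM : S_Mp := Pool.Agent.W333.BB.mp
  have hO : S_Open := Pool.Agent.W762.BB.open_it
  have hU : S_Uniq := Pool.Agent.W108.BB.uniq
  have hVr : S_Rev := W973.BB.rev hR
  have hUnif : S_Unif := Pool.Agent.W12.BB.Unif.unif W327.BB.alt (Pool.Agent.W340.BB.Trip.trip hR hB)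
  have hFan : S_Fan := Pool.Agent.W12.BB.Fan.fan hR
  have hX : S_Exit := Pool.Agent.W337.BB.exit_th
  have hG : S_Gen := Pool.Agent.W337.BB.gen_th
  have hFl : S_Flow := Pool.Agent.W462.BBF.flow hR hM hO hU hVr hH hB
  have hTau : S_Tau := Pool.Agent.W337.BB.tau_th
  -- the compressed function
  obtain ⟨f', hf'⟩ : ∃ f' : ℂ × ℝ → ℂ, f' = fun x => cp (f x) := ⟨_, rfl⟩
  have hfm : Measurable f' := by rw [hf']; exact meas_cp.comp hf
  have hfb : ∀ x, ‖f' x‖ ≤ 1 := by rw [hf']; exact fun x => cp_le _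
  have hfE : IsEigenfunction p ω χ f' := by rw [hf']; exact eigen_cp hχ hE
  have hDm : ∀ h, Dm p f' h ≤ ENNReal.ofReal 2 * modulus p f h := by
    intro h
    unfold Dm modulus
    rw [← lintegral_const_mul' _ _ ENNReal.ofReal_ne_top]
    refine lintegral_mono fun x => ?_
    rw [← ENNReal.ofReal_mul (by norm_num)]
    apply ENNReal.ofReal_le_ofReal
    unfold DD
    rw [hf']
    exact cp_lip _ _
  have hL : ∀ ε : ℝ, 0 < ε → ∃ᶠ h in 𝓝[>] (0 : ℝ),
      Dm p f' h ≤ ENNReal.ofReal (ε * (h * Real.log (1 / h))) := by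
    intro ε hε
    refine (not_rough hV (ε / 2) (by positivity)).mono fun h hh => ?_
    calc Dm p f' h ≤ ENNReal.ofReal 2 * modulus p f h := hDm h
      _ ≤ ENNReal.ofReal 2 * ENNReal.ofReal (ε / 2 * (h * Real.log (1 / h))) := by gcongr
      _ = ENNReal.ofReal (ε * (h * Real.log (1 / h))) := by
          rw [← ENNReal.ofReal_mul (by norm_num)]
          congr 1
          ring
  have hnull : ∀ η δ : ℝ, 0 < δ → δ < η →
      ∫⁻ x in GG p (2 * η), ENNReal.ofReal (TT f' δ x) = 0 := fun η δ h1 h2 =>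
    lim_log hH hB hR hO hU hM hFan hX hUnif hG hFl hp hχ hfm hfb hfE hL η δ h1 h2
  obtain ⟨g, hgm, hgp, hgb, hg⟩ := dir_f hB hH hp hfm hfb hfE hnull
  have hgood := ae_good hH hp hfE hgp hg
  have hrefl := fun i => refl_f hB hH hp hχ hfE hgood i
  have hsnd : ∀ {P : ℝ → Prop}, (∀ᵐ θ : ℝ, P θ) → ∀ᵐ x : ℂ × ℝ, P x.2 := fun h =>
    (Measure.quasiMeasurePreserving_snd (μ := (volume : Measure ℂ))
      (ν := (volume : Measure ℝ))).ae h
  have part1 : ω ≠ 0 → ∀ᵐ x : ℂ × ℝ, x ∈ phase p → f x = 0 := by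
    intro hω
    have h0 := hsnd (zero_g hB hp hω hχ hrefl)
    filter_upwards [hg, h0] with x h1 h2 hx
    have h3 := h1 hx
    rw [h2] at h3
    have h4 : f' x = 0 := by rw [eq_FF f' ω x, h3, mul_zero]
    rw [hf'] at h4
    exact cp_eq_zero h4
  have hdir0 : dir 0 = 1 := by unfold dir; simp
  have hg0 : ω = 0 → ∀ᵐ x : ℂ × ℝ, x ∈ phase p → f' x = g x.2 := by
    intro hω
    filter_upwards [hg] with x h1 hx
    have h2 := h1 hx
    rw [← h2]
    unfold FF
    rw [hω, zero_mul, neg_zero, hdir0, one_mul]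
  have hci : ∀ x, f x = ci (f' x) := fun x => by rw [hf']; exact (ci_cp _).symm
  refine ⟨part1, ?_, ?_⟩
  · intro hω
    refine ⟨fun θ => ci (g θ), meas_ci.comp hgm, ?_⟩
    filter_upwards [hg0 hω] with x h1 hx
    rw [hci, h1 hx]
  · rintro ⟨i, hi⟩ hpm
    by_cases hω : ω = 0
    swap
    · exact ⟨0, part1 hω, fun h => absurd rfl h⟩
    have hir := irr_tau hTau hp hi
    have hsw : ∀ i θ, sw (χ i) (tau p i) θ = χ i := by
      intro i θ
      unfold sw
      rcases hpm i with h | h <;> rw [h] <;> simp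
    have hr : ∀ i, ∀ᵐ θ : ℝ, g (2 * tau p i - θ) = χ i * g θ := by
      intro i
      filter_upwards [hrefl i] with θ h1
      rw [h1, wt_sw hB hp, hsw, hω, zero_mul, hdir0, mul_one]
    have hsq : ∀ i, χ i * χ i = 1 := by
      intro i
      rcases hpm i with h | h <;> rw [h] <;> norm_num
    -- the rotation
    obtain ⟨j, hj⟩ : ∃ j, j = i - 1 := ⟨_, rfl⟩
    obtain ⟨α, hα⟩ : ∃ α : ℝ, α = tau p i - tau p j := ⟨_, rfl⟩
    have hαi : Irrational (α / π) := by rw [hα, hj]; exact hir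
    have hrot : ∀ᵐ θ : ℝ, g (2 * α + θ) = χ i * χ j * g θ := by
      have q := (Measure.measurePreserving_sub_left (volume : Measure ℝ)
          (2 * tau p j)).quasiMeasurePreserving.ae (hr i)
      filter_upwards [q, hr j] with θ h1 h2
      have e : 2 * α + θ = 2 * tau p i - (2 * tau p j - θ) := by rw [hα]; ring
      rw [e, h1, h2]
      ring
    have hrot2 : ∀ᵐ θ : ℝ, g (2 * (2 * α) + θ) = g θ := by
      have q := (measurePreserving_add_left (volume : Measure ℝ)
          (2 * α)).quasiMeasurePreserving.ae hrot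
      filter_upwards [q, hrot] with θ h1 h2
      have e : 2 * (2 * α) + θ = 2 * α + (2 * α + θ) := by ring
      rw [e, h1, h2]
      have : χ i * χ j * (χ i * χ j * g θ) = (χ i * χ i) * (χ j * χ j) * g θ := by ring
      rw [this, hsq, hsq, one_mul, one_mul]
    have hα2 : Irrational (2 * α / π) := by
      have : 2 * α / π = ((2 : ℕ) : ℝ) * (α / π) := by push_cast; ring
      rw [this]
      exact hαi.natCast_mul (by norm_num)
    obtain ⟨c', hc'⟩ := rot_fun hgm hgp hrot2 hα2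
    refine ⟨ci c', ?_, fun hne => ⟨hω, fun k => ?_⟩⟩
    · filter_upwards [hg0 hω, hsnd hc'] with x h1 h2 hx
      rw [hci, h1 hx, h2]
    · have hc'0 : c' ≠ 0 := by
        intro h
        apply hne
        rw [h]
        unfold ci
        rw [smul_zero]
      have q := (Measure.measurePreserving_sub_left (volume : Measure ℝ)
        (2 * tau p k)).quasiMeasurePreserving.ae hc'
      obtain ⟨θ, h1, h2, h3⟩ := ((hr k).and (q.and hc')).exists
      rw [h2, h3] at h1
      have : χ k * c' = 1 * c' := by rw [← h1, one_mul]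
      exact mul_right_cancel₀ hc'0 this

/-! ### Sets -/

theorem eigen_ind {p : Fin (n + 3) → ℂ} {A : Set (ℂ × ℝ)} (hA : IsInvariant p A) :
    IsEigenfunction p 0 (fun _ => 1) (A.indicator (fun _ => (1 : ℂ))) := by
  have hind : ∀ x y : ℂ × ℝ, (x ∈ A ↔ y ∈ A) →
      A.indicator (fun _ => (1 : ℂ)) x = A.indicator (fun _ => (1 : ℂ)) y := by
    intro x y h
    by_cases hx : x ∈ A
    · rw [indicator_of_mem hx, indicator_of_mem (h.1 hx)]
    · rw [indicator_of_notMem hx, indicator_of_notMem (fun hy => hx (h.2 hy))]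
  refine ⟨?_, ?_, ?_⟩
  · intro z θ
    exact hind _ _ (hA.periodic z θ)
  · intro z θ s h1 h2
    rw [hind _ _ (hA.free z θ s h1 h2).symm]
    simp
  · intro i y hy θ s r hs hr h1 h2
    rw [hind _ _ (hA.reflect i y hy θ s r hs hr h1 h2).symm]
    simp

theorem modulus_ind (p : Fin (n + 3) → ℂ) {A : Set (ℂ × ℝ)}
    (hA : MeasurableSet A) (h : ℝ) :
    modulus p (A.indicator (fun _ => (1 : ℂ))) h =
      volume {x : ℂ × ℝ | x ∈ phase p ∧ ¬ (x ∈ A ↔ (x.1, x.2 + h) ∈ A)} := by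
  have hm := meas_Bp hA h
  have e : {x : ℂ × ℝ | x ∈ phase p ∧ ¬ (x ∈ A ↔ (x.1, x.2 + h) ∈ A)} = phase p ∩ Bp A h := rfl
  rw [e]
  unfold modulus
  have h1 : ∀ x : ℂ × ℝ, ENNReal.ofReal ‖A.indicator (fun _ => (1 : ℂ)) (x.1, x.2 + h) -
      A.indicator (fun _ => (1 : ℂ)) x‖ = (Bp A h).indicator (fun _ => (1 : ENNReal)) x := by
    intro x
    by_cases h2 : x ∈ A <;> by_cases h3 : (x.1, x.2 + h) ∈ A
    · rw [indicator_of_mem h2, indicator_of_mem h3, indicator_of_notMem (by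
        intro h4; exact h4 (iff_of_true h2 h3))]
      simp
    · rw [indicator_of_mem h2, indicator_of_notMem h3, indicator_of_mem (by
        intro h4; exact h3 (h4.1 h2))]
      simp
    · rw [indicator_of_notMem h2, indicator_of_mem h3, indicator_of_mem (by
        intro h4; exact h2 (h4.2 h3))]
      simp
    · rw [indicator_of_notMem h2, indicator_of_notMem h3, indicator_of_notMem (by
        intro h4; exact h4 (iff_of_false h2 h3))]
      simp
  simp_rw [h1]
  rw [lintegral_indicator hm, setLIntegral_const, one_mul, Measure.restrict_apply hm, inter_comm]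

theorem final_sets {n : ℕ} {p : Fin (n + 3) → ℂ} (hp : IsConvexPolygon p)
    (hirr : ∃ i, Irrational (ang p i / π)) (A : Set (ℂ × ℝ)) (hA : MeasurableSet A)
    (hI : IsInvariant p A) (hT : ¬ IsTrivial p A) :
    ∃ c : ℝ, 0 < c ∧ ∀ᶠ h in 𝓝[>] (0 : ℝ), ENNReal.ofReal (c * (h * Real.log (1 / h))) ≤
      volume {x : ℂ × ℝ | x ∈ phase p ∧ ¬ (x ∈ A ↔ (x.1, x.2 + h) ∈ A)} := by
  by_contra hcon
  have hR : ¬ Rough p (A.indicator (fun _ => (1 : ℂ))) := by
    rintro ⟨c, hc, hev⟩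
    apply hcon
    refine ⟨c, hc, ?_⟩
    filter_upwards [hev] with h hh
    rwa [modulus_ind p hA] at hh
  obtain ⟨c, hc, -⟩ := (final_log hp 0 (fun _ => 1) (fun _ => norm_one)
    (A.indicator (fun _ => (1 : ℂ))) (measurable_const.indicator hA) (eigen_ind hI) hR).2.2 hirr
    (fun _ => Or.inl rfl)
  apply hT
  by_cases h1 : c = 1
  · right
    rw [ae_iff] at hc
    refine measure_mono_null ?_ hc
    rintro x ⟨h2, h3⟩ h4
    have h5 := h4 h2
    rw [indicator_of_notMem h3, h1] at h5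
    exact zero_ne_one h5
  · left
    rw [ae_iff] at hc
    refine measure_mono_null ?_ hc
    rintro x ⟨h2, h3⟩ h4
    have h5 := h4 h2
    rw [indicator_of_mem h3] at h5
    exact h1 h5.symm

end Pool.Agent.TH578.BE
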