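import Pool.Agent.TH578.BE.Dir
import Pool.Agent.W101.BB.Refl

set_option autoImplicit false

/-!
The reflection relations for the function of the direction.
-/

namespace Pool.Agent.TH578.BE

open Complex Set MeasureTheory Filter Topology Pool.Agent.W780.PG Pool.Agent.W780.BB
open Pool.Agent.W803.BBD (xc)
open Pool.Agent.W101.BB (rate sf_add rate_refl rate_eq cont_sf ae_rate)

open scoped Real ComplexConjugate

variable {n : ℕ}

/-- `g` describes the states with direction `θ` -/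
def Gd (p : Fin (n + 3) → ℂ) (ω : ℝ) (f : ℂ × ℝ → ℂ) (g : ℝ → ℂ) (θ : ℝ) : Prop :=
  ∀ᵐ z : ℂ, z ∈ reg p → FF ω f (z, θ) = g θ

theorem xc_sub' (θ : ℝ) (z w : ℂ) : xc θ (z - w) = xc θ z - xc θ w := W803.BBD.xc_sub θ z w

theorem xc_smul (θ s : ℝ) (z : ℂ) : xc θ (s • z) = s * xc θ z := by
  unfold W803.BBD.xc
  rw [real_smul]
  have : conj (dir θ) * ((s : ℂ) * z) = (s : ℂ) * (conj (dir θ) * z) := by ring
  rw [this, re_ofReal_mul]

/-- the component along a direction of a vector of length `r` and direction `a` -/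
theorem xc_polar (θ : ℝ) (u : ℂ) : xc θ u = ‖u‖ * Real.cos (θ - arg u) := by
  unfold W803.BBD.xc
  have h1 : conj (dir θ) = exp (((-θ : ℝ) : ℂ) * I) := by
    unfold dir
    rw [← exp_conj, map_mul, conj_ofReal, conj_I]
    congr 1
    push_cast
    ring
  conv_lhs => rw [← norm_mul_exp_arg_mul_I u]
  rw [h1]
  have h2 : exp (((-θ : ℝ) : ℂ) * I) * ((‖u‖ : ℂ) * exp ((arg u : ℂ) * I)) =
      (‖u‖ : ℂ) * exp (((arg u - θ : ℝ) : ℂ) * I) := by
    have h3 : exp (((arg u - θ : ℝ) : ℂ) * I) =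
        exp (((-θ : ℝ) : ℂ) * I) * exp ((arg u : ℂ) * I) := by
      rw [← exp_add]
      congr 1
      push_cast
      ring
    rw [h3]
    ring
  rw [h2, re_ofReal_mul, exp_ofReal_mul_I_re, ← Real.cos_neg]
  congr 2
  ring

/-- the component of a side vector is the same for a direction and its reflection -/
theorem xc_side (p : Fin (n + 3) → ℂ) (i : Fin (n + 3)) (θ : ℝ) :
    xc (2 * tau p i - θ) (p (i + 1) - p i) = xc θ (p (i + 1) - p i) := by
  rw [xc_polar, xc_polar]
  have h : arg (p (i + 1) - p i) = tau p i := rfl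
  rw [h, ← Real.cos_neg (θ - tau p i)]
  congr 2
  ring

/-- a point of the line of a side -/
theorem line_pt (p : Fin (n + 3) → ℂ) (i : Fin (n + 3)) {y : ℂ}
    (hy : y ∈ openSegment ℝ (p i) (p (i + 1))) : ∃ t : ℝ, y = p i + t • (p (i + 1) - p i) := by
  obtain ⟨a, b, -, -, hab, rfl⟩ := hy
  refine ⟨b, ?_⟩
  have : a = 1 - b := by linarith
  rw [this, sub_smul, one_smul, smul_sub]
  abel

theorem xc_diff (p : Fin (n + 3) → ℂ) (i : Fin (n + 3)) {y : ℂ}
    (hy : y ∈ openSegment ℝ (p i) (p (i + 1))) (θ : ℝ) :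
    xc θ y - xc (2 * tau p i - θ) y = xc θ (p i) - xc (2 * tau p i - θ) (p i) := by
  obtain ⟨t, ht⟩ := line_pt p i hy
  have h1 : ∀ φ : ℝ, xc φ y = xc φ (p i) + t * xc φ (p (i + 1) - p i) := by
    intro φ
    have h2 : t • (p (i + 1) - p i) = y - p i := by rw [ht]; ring
    rw [← xc_smul, h2, xc_sub']
    ring
  rw [h1, h1, xc_side]
  ring

theorem first (hB : S_Basic) (hH : S_Hull) {p : Fin (n + 3) → ℂ} (hp : IsConvexPolygon p)
    {ω : ℝ} {χ : Fin (n + 3) → ℂ} {f : ℂ × ℝ → ℂ} (hS : IsEigenfunction p ω χ f) {g : ℝ → ℂ}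
    (i : Fin (n + 3)) {θ : ℝ}
    (hr : rate p i θ < 0) (h1 : Gd p ω f g θ) (h2 : Gd p ω f g (2 * tau p i - θ)) :
    g (2 * tau p i - θ) = χ i * dir (ω * (xc θ (p i) - xc (2 * tau p i - θ) (p i))) * g θ := by
  obtain ⟨-, hop, -, -, -, -, -, -, hfr, -, hside, hvs, hsd, -⟩ := hB n p hp
  have hreg := (hH n p hp).2
  set θ' := 2 * tau p i - θ with hθ'
  have hr' : rate p i θ' = - rate p i θ := rate_refl p i θ
  -- a point of the side
  obtain ⟨y0, hy0⟩ : (side p i).Nonempty := by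
    unfold side
    exact ⟨_, ⟨1 / 2, 1 / 2, by norm_num, by norm_num, by norm_num, rfl⟩⟩
  obtain ⟨-, hy0i, hy0k⟩ := hsd i y0 hy0
  have hy0i' : sf p i y0 = 0 := hy0i
  -- a neighbourhood in which everything is decided by the side `i`
  have hnb : ∀ᶠ z in 𝓝 y0, (∀ k, k ≠ i → 0 < sf p k z) ∧ ∀ k, z ≠ p k := by
    refine Filter.Eventually.and ?_ ?_
    · refine Filter.eventually_all.2 fun k => ?_
      by_cases hk : k = i
      · exact Filter.Eventually.of_forall fun z h => absurd hk h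
      · have := (cont_sf p k).continuousAt.eventually (lt_mem_nhds (hy0k k hk))
        filter_upwards [this] with z hz _ using hz
    · refine Filter.eventually_all.2 fun k => ?_
      exact eventually_ne_nhds fun h => hvs i k (h ▸ hy0)
  have hneg : -rate p i θ ≠ 0 := by linarith
  set κ : ℝ := (- rate p i θ)⁻¹ with hκ
  have hκ0 : 0 < κ := inv_pos.2 (by linarith)
  have hκr : κ * rate p i θ = -1 := by
    rw [hκ, inv_mul_eq_div, div_eq_iff hneg]; ring
  set Y : ℂ → ℂ := fun z => z + (κ * sf p i z) • dir θ with hY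
  set Φ : ℂ → ℂ := fun z => Y z + (κ * sf p i z) • dir θ' with hΦ
  have hYc : Continuous Y := by
    have := cont_sf p i
    exact continuous_id.add ((continuous_const.mul this).smul continuous_const)
  have hΦc : Continuous Φ := by
    have := cont_sf p i
    exact hYc.add ((continuous_const.mul this).smul continuous_const)
  have hY0 : Y y0 = y0 := by rw [hY]; simp [hy0i']
  have hΦ0 : Φ y0 = y0 := by rw [hΦ]; simp [hy0i', hY0]
  have hV : ∀ᶠ z in 𝓝 y0, ((∀ k, k ≠ i → 0 < sf p k (Y z)) ∧ ∀ k, Y z ≠ p k) ∧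
      ((∀ k, k ≠ i → 0 < sf p k (Φ z)) ∧ ∀ k, Φ z ≠ p k) := by
    refine Filter.Eventually.and ?_ ?_
    · have h3 : Tendsto Y (𝓝 y0) (𝓝 y0) := by
        have := hYc.continuousAt (x := y0)
        rwa [ContinuousAt, hY0] at this
      exact h3.eventually hnb
    · have h3 : Tendsto Φ (𝓝 y0) (𝓝 y0) := by
        have := hΦc.continuousAt (x := y0)
        rwa [ContinuousAt, hΦ0] at this
      exact h3.eventually hnb
  obtain ⟨V, hVs, hVo, hyV⟩ := mem_nhds_iff.1 hV
  have hW : (V ∩ reg p).Nonempty := by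
    have : y0 ∈ closure (reg p) := frontier_subset_closure (hfr i hy0)
    exact mem_closure_iff.1 this V hVo hyV
  have hWo : IsOpen (V ∩ reg p) := hVo.inter hop
  -- the inverse map
  set Ψ : ℂ → ℂ := fun z => z - (κ * sf p i z) • (dir θ + dir θ') with hΨ
  have hsfY : ∀ z, sf p i (Y z) = 0 := by
    intro z
    rw [hY]
    simp only
    rw [sf_add]
    linear_combination (sf p i z) * hκr
  have hsfΦ : ∀ z, sf p i (Φ z) = sf p i z := by
    intro z
    rw [hΦ]
    simp only
    rw [sf_add, hsfY, hr']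
    linear_combination -(sf p i z) * hκr
  have hΨΦ : ∀ z, Ψ (Φ z) = z := by
    intro z
    rw [hΨ]
    simp only
    rw [hsfΦ, hΦ, hY]
    simp only
    rw [smul_add]
    abel
  have hΨd : Differentiable ℝ Ψ := by
    have h3 : Differentiable ℝ (sf p i) := by
      have e : sf p i = fun z => (conj (p (i + 1) - p i) * (z - p i)).im := rfl
      rw [e]
      exact Complex.imCLM.differentiable.comp
        ((differentiable_const _).mul (differentiable_id.sub_const _))
    exact differentiable_id.sub ((h3.const_mul _).smul_const _)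
  -- the images of null sets
  have h2' : ∀ᵐ z : ℂ, Φ z ∈ reg p → FF ω f (Φ z, θ') = g θ' := by
    unfold Gd at h2
    rw [ae_iff] at h2 ⊢
    have h4 := addHaar_image_eq_zero_of_differentiableOn_of_addHaar_eq_zero volume
      (hΨd.differentiableOn (s := {a | ¬ (a ∈ reg p → FF ω f (a, θ') = g θ')})) h2
    refine measure_mono_null ?_ h4
    intro z hz
    exact ⟨Φ z, hz, hΨΦ z⟩
  obtain ⟨z, ⟨hzV, hzr⟩, hz1, hz2⟩ : ∃ z ∈ V ∩ reg p,
      (z ∈ reg p → FF ω f (z, θ) = g θ) ∧ (Φ z ∈ reg p → FF ω f (Φ z, θ') = g θ') := by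
    by_contra hcon
    have h5 := h1.and h2'
    have h6 : volume (V ∩ reg p) = 0 := by
      rw [ae_iff] at h5
      exact measure_mono_null (fun z hz hP => hcon ⟨z, hz, hP⟩) h5
    exact (hWo.measure_pos volume hW).ne' h6
  have hzi : 0 < sf p i z := hzr i
  have hs : 0 < κ * sf p i z := mul_pos hκ0 hzi
  obtain ⟨⟨hY1, hY2⟩, hΦ1, -⟩ := hVs hzV
  have hΦr : Φ z ∈ reg p := by
    intro k
    by_cases hk : k = i
    · subst hk
      have := hsfΦ z
      unfold sf at this hzi
      rw [this]; exact hzi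
    · exact hΦ1 k hk
  have hYs : Y z ∈ openSegment ℝ (p i) (p (i + 1)) := by
    refine (hside (Y z) ?_ i (hsfY z) hY2).1
    intro k
    by_cases hk : k = i
    · subst hk
      exact (hsfY z).ge
    · exact (hY1 k hk).le
  have hback : Y z - (κ * sf p i z) • dir θ = z := by
    rw [hY]; simp
  have hre := hS.reflect i (Y z) hYs θ (κ * sf p i z) (κ * sf p i z) hs hs
    (by rw [hback, hreg]; exact hzr) (by rw [hreg]; exact hΦr)
  rw [hback, dir_def] at hre
  have hre' : f (Φ z, θ') = χ i * dir (ω * (κ * sf p i z + κ * sf p i z)) * f (z, θ) := hre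
  -- rewrite with `g`
  have a1 : f (z, θ) = dir (ω * xc θ z) * g θ := by
    rw [eq_FF f ω (z, θ), hz1 hzr]
  have a2 : g θ' = dir (-(ω * xc θ' (Φ z))) * f (Φ z, θ') := by
    rw [← hz2 hΦr]
    rfl
  have b1 : xc θ z = xc θ (Y z) - κ * sf p i z := by
    have h7 := xc_add_smul θ (κ * sf p i z) z
    have h8 : xc θ (Y z) = xc θ z + κ * sf p i z := h7
    rw [h8]; ring
  have b2 : xc θ' (Φ z) = xc θ' (Y z) + κ * sf p i z := xc_add_smul θ' (κ * sf p i z) (Y z)
  have b3 := xc_diff p i hYs θ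
  rw [← hθ'] at b3
  rw [a2, hre', a1]
  have hd : dir (ω * (xc θ (p i) - xc θ' (p i))) =
      dir (-(ω * xc θ' (Φ z))) * (dir (ω * (κ * sf p i z + κ * sf p i z)) * dir (ω * xc θ z)) := by
    rw [← dir_add, ← dir_add, ← b3, b1, b2]
    congr 1
    ring
  rw [hd]
  ring

/-- for almost every direction the function is described -/
theorem ae_good (hH : S_Hull) {p : Fin (n + 3) → ℂ} (hp : IsConvexPolygon p)
    {ω : ℝ} {χ : Fin (n + 3) → ℂ} {f : ℂ × ℝ → ℂ} (hS : IsEigenfunction p ω χ f) {g : ℝ → ℂ}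
    (hgp : ∀ θ, g (θ + 2 * π) = g θ)
    (h1 : ∀ᵐ x : ℂ × ℝ, x ∈ phase p → FF ω f x = g x.2) :
    ∀ᵐ θ : ℝ, Gd p ω f g θ := by
  have hreg := (hH n p hp).2
  have h2 : ∀ᵐ y ∂((volume : Measure ℝ).prod (volume : Measure ℂ)),
      y.swap ∈ phase p → FF ω f y.swap = g y.swap.2 :=
    (Measure.measurePreserving_swap (μ := (volume : Measure ℝ))
      (ν := (volume : Measure ℂ))).quasiMeasurePreserving.ae h1
  have h3 := Measure.ae_ae_of_ae_prod h2
  have h4 : ∀ᵐ θ : ℝ, θ ∈ Ico 0 (2 * π) → Gd p ω f g θ := by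
    filter_upwards [h3] with θ hθ hI
    filter_upwards [hθ] with z hz hzr
    exact hz ⟨by rw [hreg]; exact hzr, hI⟩
  -- periodicity
  have hFp : ∀ z θ, FF ω f (z, θ + 2 * π) = FF ω f (z, θ) := by
    intro z θ
    unfold FF
    simp only
    rw [hS.periodic, xc_per]
  have hper : ∀ θ, Gd p ω f g (θ + 2 * π) ↔ Gd p ω f g θ := by
    intro θ
    unfold Gd
    simp only [hFp, hgp]
  have hperz : ∀ (k : ℤ) θ, Gd p ω f g (θ + k • (2 * π)) ↔ Gd p ω f g θ := by
    intro k
    induction k using Int.induction_on with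
    | zero => intro θ; simp
    | succ k ih =>
      intro θ
      rw [add_zsmul, one_zsmul, ← add_assoc, hper, ih]
    | pred k ih =>
      intro θ
      rw [← hper, sub_zsmul, one_zsmul]
      have : θ + ((-(k:ℤ)) • (2 * π) + -(2 * π)) + 2 * π = θ + (-(k:ℤ)) • (2 * π) := by ring
      rw [this, ih]
  have h5 : ∀ᵐ θ : ℝ, ∀ k : ℤ, θ + k • (2 * π) ∈ Ico 0 (2 * π) →
      Gd p ω f g (θ + k • (2 * π)) := by
    rw [ae_all_iff]
    intro k
    exact (measurePreserving_add_right (volume : Measure ℝ) (k • (2 * π))).quasiMeasurePreserving.ae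
      h4
  filter_upwards [h5] with θ hθ
  obtain ⟨k, hk, -⟩ := existsUnique_add_zsmul_mem_Ico Real.two_pi_pos θ 0
  rw [zero_add] at hk
  exact (hperz k θ).1 (hθ k hk)

end Pool.Agent.TH578.BE
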